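import Pool.Agent.H68.BG.Defs
import Pool.Agent.H17.UG.Main

/-!
# Translation between signatures and Mathlib's languages
-/

namespace Pool.Agent.H68.BP

open FirstOrder FirstOrder.Language Function
open Pool.Agent.H17

/-- the language of a signature -/
def Lan (σ : Sig) : FirstOrder.Language.{0, 0} :=
  ⟨fun _ => Empty, fun n => {l : Fin σ.m // σ.ar l = n}⟩

instance (σ : Sig) : (Lan σ).IsRelational := fun _ => inferInstanceAs (IsEmpty Empty)

/-- a structure as a structure of Mathlib -/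
@[reducible] def lstr {σ : Sig} {A : Type} (𝔸 : Str σ A) : (Lan σ).Structure A where
  funMap := fun f => f.elim
  RelMap := fun R x => 𝔸 R.1 (fun i => x (Fin.cast R.2 i))

/-- a structure of Mathlib as a structure -/
def ustr (σ : Sig) (A : Type) [(Lan σ).Structure A] : Str σ A :=
  fun l x => Structure.RelMap (L := Lan σ) (⟨l, rfl⟩ : {l' : Fin σ.m // σ.ar l' = σ.ar l}) x

theorem finRel_lan (σ : Sig) : DG.FinRel (Lan σ) := by
  refine ⟨inferInstance, ?_⟩
  refine Finite.of_injective (β := Fin σ.m) (fun x => x.2.1) ?_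
  rintro ⟨n, l, h⟩ ⟨n', l', h'⟩ hl
  simp only at hl
  subst hl
  subst h
  subst h'
  rfl

theorem relMap_ustr {σ : Sig} {A : Type} [(Lan σ).Structure A] {n : ℕ} (R : (Lan σ).Relations n)
    (x : Fin n → A) : Structure.RelMap R x ↔ ustr σ A R.1 (fun i => x (Fin.cast R.2 i)) := by
  obtain ⟨l, rfl⟩ := R
  exact Iff.rfl

theorem ustr_lstr {σ : Sig} {A : Type} (𝔸 : Str σ A) : @ustr σ A (lstr 𝔸) = 𝔸 := rfl

theorem nonempty_emb {σ : Sig} {A B : Type} [(Lan σ).Structure A] [(Lan σ).Structure B] :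
    Nonempty ((Lan σ).Embedding A B) ↔ Embeds (ustr σ A) (ustr σ B) := by
  constructor
  · rintro ⟨f⟩
    exact ⟨f, f.injective, fun l x => (f.map_rel (L := Lan σ)
      (⟨l, rfl⟩ : {l' : Fin σ.m // σ.ar l' = σ.ar l}) x).symm⟩
  · rintro ⟨f, hf, hf2⟩
    exact ⟨{ toFun := f
             inj' := hf
             map_fun' := fun F => isEmptyElim F
             map_rel' := fun R x => by
               rw [relMap_ustr, relMap_ustr]
               exact (hf2 R.1 _).symm }⟩

theorem homog_lan {σ : Sig} {A : Type} {𝔸 : Str σ A} (h : Homogeneous 𝔸) :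
    @IsUltrahomogeneous (Lan σ) A (lstr 𝔸) := by
  classical
  let _ := lstr 𝔸
  apply DG.homog_of_tuple
  intro I hI a b hab
  have := Fintype.ofFinite I
  let F : Finset A := Finset.univ.image a
  have hF : ∀ x : F, ∃ i, a i = x := by
    intro x
    have := x.2
    rw [Finset.mem_image] at this
    obtain ⟨i, -, hi⟩ := this
    exact ⟨i, hi⟩
  choose idx hidx using hF
  obtain ⟨g, hg1, hg2⟩ := h F (fun x => b (idx x)) (by
    constructor
    · intro x y hxy
      apply Subtype.ext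
      rw [← hidx x, ← hidx y]
      exact (hab.eq _ _).2 hxy
    · intro l x
      have h2 : (fun i => a (idx (x i))) = fun i => ((x i : F) : A) := funext fun i => hidx _
      have h3 := hab.rel (⟨l, rfl⟩ : {l' : Fin σ.m // σ.ar l' = σ.ar l}) (fun i => idx (x i))
      rw [h2] at h3
      exact h3)
  refine ⟨{ toEquiv := g
            map_fun' := fun f => isEmptyElim f
            map_rel' := fun R x => (hg1 _ _).symm }, fun i => ?_⟩
  have h1 : a i ∈ F := Finset.mem_image.2 ⟨i, Finset.mem_univ i, rfl⟩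
  have h2 := hg2 ⟨a i, h1⟩
  have h3 : g (a i) = b (idx ⟨a i, h1⟩) := h2
  change g (a i) = b i
  rw [h3]
  exact (hab.eq _ _).1 (hidx ⟨a i, h1⟩)

theorem embeds_equiv {σ : Sig} {A B A' B' : Type} {𝔸 : Str σ A} {𝔹 : Str σ B} {𝔸' : Str σ A'}
    {𝔹' : Str σ B'} (e : A' ≃ A) (e' : B ≃ B') (he : ∀ l x, 𝔸' l x ↔ 𝔸 l (fun i => e (x i)))
    (he' : ∀ l x, 𝔹 l x ↔ 𝔹' l (fun i => e' (x i))) (h : Embeds 𝔸 𝔹) : Embeds 𝔸' 𝔹' := by
  obtain ⟨f, hf, hf2⟩ := h
  refine ⟨fun x => e' (f (e x)), e'.injective.comp (hf.comp e.injective), fun l x => ?_⟩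
  rw [he, hf2, he']

theorem finBdd_lan {σ : Sig} {A : Type} {𝔸 : Str σ A} (h : FinitelyBounded 𝔸) :
    @DG.FinitelyBounded (Lan σ) A (lstr 𝔸) := by
  obtain ⟨N, hN⟩ := h
  let _ := lstr 𝔸
  refine ⟨Fin N.length, inferInstance, fun i => Fin (N.get i).1, fun i => inferInstance,
    fun i => lstr (N.get i).2, fun Y _ _ => ?_⟩
  obtain ⟨n, ⟨e⟩⟩ := Finite.exists_equiv_fin Y
  let 𝕏 : Str σ (Fin n) := fun l x => ustr σ Y l (fun i => e.symm (x i))
  have h1 : Nonempty ((Lan σ).Embedding Y A) ↔ Embeds 𝕏 𝔸 := by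
    rw [nonempty_emb]
    constructor
    · exact embeds_equiv e.symm (Equiv.refl A) (fun l x => Iff.rfl) (fun l x => Iff.rfl)
    · exact embeds_equiv e (Equiv.refl A) (fun l x => by simp [𝕏]) (fun l x => Iff.rfl)
  rw [h1, hN]
  have h2 : ∀ i : Fin N.length, Embeds (N.get i).2 𝕏 ↔
      Nonempty (@FirstOrder.Language.Embedding (Lan σ) (Fin (N.get i).1) Y
        (lstr (N.get i).2) _) := by
    intro i
    let _ := lstr (N.get i).2
    rw [nonempty_emb]
    constructor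
    · exact embeds_equiv (Equiv.refl _) e.symm (fun l x => Iff.rfl) (fun l x => Iff.rfl)
    · exact embeds_equiv (Equiv.refl _) e (fun l x => Iff.rfl) (fun l x => by simp [𝕏])
  constructor
  · intro h i
    rw [← not_nonempty_iff, ← h2]
    exact h _ (List.get_mem N i)
  · intro h 𝕐 h𝕐
    obtain ⟨i, rfl⟩ := List.mem_iff_get.1 h𝕐
    have := h i
    rw [← not_nonempty_iff, ← h2] at this
    exact this

theorem reduct_lan {σ τ : Sig} {A : Type} {𝔸 : Str σ A} {𝔹 : Str τ A} (h : IsReduct 𝔸 𝔹) :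
    @DG.IsReduct (Lan σ) (Lan τ) A (lstr 𝔸) (lstr 𝔹) := by
  obtain ⟨ι, hι, h⟩ := h
  choose h1 h2 using h
  refine ⟨fun n R => ⟨ι R.1, (h1 R.1).trans R.2⟩, ?_, ?_⟩
  · intro n R R' hR
    exact Subtype.ext (hι (congrArg Subtype.val hR))
  · rintro n ⟨l, rfl⟩ x
    exact h2 l x

theorem inScope_lan {σ : Sig} {A : Type} {𝔸 : Str σ A} (h : InScope 𝔸) :
    @DG.InScope (Lan σ) A (lstr 𝔸) := by
  obtain ⟨h1, h2, τ, 𝔹, h3, h4, h5⟩ := h
  exact ⟨finRel_lan σ, h1, h2, Lan τ, lstr 𝔹, finRel_lan τ, homog_lan h3, finBdd_lan h4,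
    reduct_lan h5⟩

end Pool.Agent.H68.BP
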