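import Pool.Agent.H68.BG.Red

/-!
# The Bodirsky–Pinsker conjecture reduces to graphs, given the construction of the graphs
-/

namespace Pool.Agent.H68.BP

open Pool.Agent.H1.NP Pool.Agent.H1.PNP Pool.Agent.H68.OQP
open Pool.Agent.H68.NPH hiding prs
open Function

theorem csp_code {σ : Sig} {A : Type} (𝔸 : Str σ A) {n : ℕ} {L : List (List ℕ)}
    (hL : ∀ c ∈ L, c.length = σ.width + 1) :
    CSP 𝔸 (code n L) = true ↔ ∃ f : Fin n → A, IsHom (strOf σ n L) 𝔸 f := by
  have hdec : CSP 𝔸 (code n L) = true ↔ ∃ n' L', (∀ c ∈ L', c.length = σ.width + 1) ∧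
      code n' L' = code n L ∧ ∃ f : Fin n' → A, IsHom (strOf σ n' L') 𝔸 f := by
    unfold CSP
    exact @decide_eq_true_iff _ (Classical.propDecidable _)
  rw [hdec]
  constructor
  · rintro ⟨n', L', h1, h2, h3⟩
    obtain ⟨h4, h5⟩ := code_inj (by omega) h1 hL h2
    subst h4 h5
    exact h3
  · intro h
    exact ⟨n, L, hL, rfl, h⟩

theorem csp_true {σ : Sig} {A : Type} (𝔸 : Str σ A) {x : List Bool} (h : CSP 𝔸 x = true) :
    ∃ n L, (∀ c ∈ L, c.length = σ.width + 1) ∧ code n L = x := by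
  have hdec : CSP 𝔸 x = true ↔ ∃ n' L', (∀ c ∈ L', c.length = σ.width + 1) ∧
      code n' L' = x ∧ ∃ f : Fin n' → A, IsHom (strOf σ n' L') 𝔸 f := by
    unfold CSP
    exact @decide_eq_true_iff _ (Classical.propDecidable _)
  obtain ⟨n, L, h1, h2, -⟩ := hdec.1 h
  exact ⟨n, L, h1, h2⟩

theorem code_of_cV {σ : Sig} {x : List Bool} (h : cV.tv (ph (σ.width + 1) x) []) :
    ∃ n L, (∀ c ∈ L, c.length = σ.width + 1) ∧ code n L = x := by
  simp only [cV, tv_and, tv_le, tv_eq, Ex.val] at h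
  obtain ⟨h1, h2⟩ := h
  have hb : bad x = 0 := by
    by_contra hb
    have := ph_bad (W := σ.width + 1) hb
    omega
  obtain ⟨l, hl, rfl⟩ := eq_unary_of_bad hb
  have hk : ∃ k, 1 + (σ.width + 1) * k = l.length := by
    by_contra hk
    push Not at hk
    have := ph_unary (W := σ.width + 1) hl hk
    rw [this] at h2
    omega
  obtain ⟨k, hk⟩ := hk
  obtain ⟨n, l', rfl⟩ := List.exists_cons_of_ne_nil hl
  rw [List.length_cons] at hk
  obtain ⟨L, -, h3, h4⟩ := exists_flatten (W := σ.width + 1) k l' (by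
    rw [Nat.mul_comm]; omega)
  exact ⟨n, L, h3, by rw [code_eq, h4]⟩

theorem manyOne_of_gadget {σ : Sig} {A : Type} {𝔸 : Str σ A} {G : Type} [Nonempty G]
    {E : G → G → Prop} (hE : ∀ x, ¬ E x x) {g : Gadget σ} (hg : g.Reduces 𝔸 E) :
    N793a5b8e.ManyOneReducible (CSP 𝔸) (CSP (graph E)) := by
  refine manyOne (polyOn_red' g) (fun p => csp_encD E p) (fun x => ?_)
  by_cases h : cV.tv (ph (σ.width + 1) x) []
  · obtain ⟨n, L, h1, rfl⟩ := code_of_cV h
    rw [csp_code 𝔸 h1, red_code g h1]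
    exact hg n _
  · constructor
    · intro hx
      obtain ⟨n, L, h1, rfl⟩ := csp_true 𝔸 hx
      obtain ⟨M, hM, h0, -, -, h3, -⟩ := ph_vals (n := n) h1
      refine absurd ?_ h
      rw [hM]
      simp only [cV, tv_and, tv_le, tv_eq, Ex.val, h0, h3]
      exact ⟨le_rfl, trivial⟩
    · intro hx
      exact absurd hx (red_bad g hE h)

theorem mem_P_of_manyOne {L M : N68a2faeb.DecisionProblem} (h : N793a5b8e.ManyOneReducible L M)
    (hM : M ∈ N68a2faeb.P) : L ∈ N68a2faeb.P := by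
  obtain ⟨f, hf, h⟩ := h
  have : L = fun x => M (f x) := funext h
  rw [this]
  exact isPolyTime_comp hf hM

end Pool.Agent.H68.BP
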