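import Pool.Agent.H23.BG.TargetsW

/-!
# MP_52e316_nt, board brg_modules, row W_NE: extensions and the composition with the norm
-/

set_option autoImplicit false

open Polynomial

namespace Pool.Agent.H68.BG

/-- the composition of a character with the norm -/
private noncomputable def nch {F E : Type} [Field F] [Field E] [Algebra F E]
    [FiniteDimensional F E] (χ : MulChar F ℂ) : MulChar E ℂ where
  toFun x := χ (Algebra.norm F x)
  map_one' := by rw [map_one, map_one]
  map_mul' x y := by rw [map_mul, map_mul]
  map_nonunit' x hx := by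
    have h0 : x = 0 := by
      by_contra h
      exact hx (IsUnit.mk0 x h)
    rw [h0, Algebra.norm_zero]
    exact MulChar.map_zero χ

private theorem nch_apply {F E : Type} [Field F] [Field E] [Algebra F E]
    [FiniteDimensional F E] (χ : MulChar F ℂ) (x : E) :
    nch χ x = χ (Algebra.norm F x) := rfl

private theorem pow_eq_one_iff' {R : Type} [CommRing R] (χ : MulChar R ℂ) (j : ℕ) :
    χ ^ j = 1 ↔ ∀ u : Rˣ, χ (u : R) ^ j = 1 := by
  constructor
  · intro h u
    rw [← MulChar.pow_apply_coe, h, MulChar.one_apply_coe]
  · intro h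
    refine MulChar.ext fun u => ?_
    rw [MulChar.pow_apply_coe, MulChar.one_apply_coe]
    exact h u

/-- Row W_NE -/
theorem pf_W_NE : Pool.Agent.H23.BG.W_NE := by
  intro F _ _ k hk
  obtain ⟨p, hp⟩ := CharP.exists F
  have hpp : Fact p.Prime := ⟨CharP.char_is_prime F p⟩
  have hk0 : NeZero k := ⟨by omega⟩
  refine ⟨FiniteField.Extension F p k, inferInstance, Fintype.ofFinite _, inferInstance,
    FiniteField.finrank_extension F p k, fun χ => ⟨nch χ, ?_, fun x => nch_apply χ x⟩⟩
  rw [orderOf_eq_orderOf_iff]
  intro j
  rw [pow_eq_one_iff', pow_eq_one_iff']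
  constructor
  · intro h u
    obtain ⟨x, hx⟩ := FiniteField.unitsMap_norm_surjective F (FiniteField.Extension F p k) u
    have h1 := h x
    rw [nch_apply] at h1
    have h2 : Algebra.norm F (x : FiniteField.Extension F p k) = (u : F) :=
      congrArg (fun w : Fˣ => (w : F)) hx
    rw [h2] at h1
    exact h1
  · intro h x
    rw [nch_apply]
    exact h (Units.map (Algebra.norm F (S := FiniteField.Extension F p k)) x)

end Pool.Agent.H68.BG
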