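import Pool.Agent.H23.BG.TargetsF
import Pool.Agent.H56.DW.BP

/-!
# F_BD of brg_modules: the hybrid Weyl bound for the first sum, any modulus (MP_52e316_nt)
-/

set_option autoImplicit false

open NumberField NumberField.InfinitePlace NumberField.Units
  NumberField.Units.dirichletUnitTheorem MeasureTheory Set Filter Complex
open scoped nonZeroDivisors ENNReal

namespace Pool.Agent.H68.BG.F_BD

open Pool.Agent.H25.HK Pool.Agent.H23.LB Pool.Agent.H23.LC Pool.Agent.H29.DW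
open Pool.Agent.H28.RC (Rep ft idl)
open Pool.Agent.H29.TC (GK fk_le dvs cq LC Gn)
open Pool.Agent.H56.DW

section

variable {K : Type} [Field K] [NumberField K]

theorem Nf_top : Nf K (⊤ : Ideal (𝓞 K)) = 1 := by
  unfold Nf
  simp

/-- the constant function has bounded correlations -/
theorem cor_one (hDF : Pool.Agent.H29.TC.T_DF) (f : Ideal (𝓞 K)) (M : FI K) :
    Cor f ⊤ M (fun _ => 1) 1 := by
  refine ⟨fun x _ => by simp, fun h hh _ => ⟨⊤, (hDF K ⊤ top_ne_bot ⊤).2 le_rfl, ?_, ?_, ?_⟩⟩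
  · rwa [Ideal.mul_top]
  · intro x _ t _
    rfl
  · intro X hX y hy
    have h1 : Nf K (⊤ : Ideal (𝓞 K)) = 1 := Nf_top
    have h2 : X.card ≤ 1 := by
      rw [Finset.card_le_one]
      intro a ha b hb
      have h3 : ((⊤ ^ 2 : Ideal (𝓞 K)) : FI K) * M = M := by
        rw [Ideal.top_pow, FractionalIdeal.coeIdeal_top, one_mul]
      obtain ⟨r, -, h4⟩ := hX.2 a (hX.1 a ha)
      rw [h3] at h4
      have h5 : a = r := h4 a ⟨ha, by
        rw [sub_self, ← FractionalIdeal.mem_coe]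
        exact Submodule.zero_mem _⟩
      have h6 : b = r := h4 b ⟨hb, by
        have h7 := hX.1 a ha
        have h8 := hX.1 b hb
        rw [← FractionalIdeal.mem_coe] at h7 h8 ⊢
        exact Submodule.sub_mem _ h7 h8⟩
      rw [h5, h6]
    rw [h1]
    unfold ft
    refine (norm_sum_le _ _).trans ?_
    have h3 : ∀ r ∈ X, ‖(fun _ : K => (1 : ℂ)) (r + h) *
        (starRingEnd ℂ) ((fun _ : K => (1 : ℂ)) r) *
        cexp (2 * Real.pi * I * ((Algebra.trace ℚ K (r * y) : ℚ) : ℂ))‖ ≤ 1 := by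
      intro r _
      have h4 : (2 * Real.pi * I * ((Algebra.trace ℚ K (r * y) : ℚ) : ℂ)) =
          ((2 * Real.pi * ((Algebra.trace ℚ K (r * y) : ℚ) : ℝ) : ℝ) : ℂ) * I := by
        push_cast
        ring
      rw [h4, norm_mul, Complex.norm_exp_ofReal_mul_I]
      simp
    refine (Finset.sum_le_card_nsmul _ _ _ h3).trans ?_
    rw [nsmul_eq_mul, mul_one, mul_one, mul_one]
    exact_mod_cast h2

end

open scoped Classical in
theorem pf_F_BD (hUP : V_UP) (hWL : V_WL) (hBS : V_BS) (hCG : U_CG)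
    (hDF : Pool.Agent.H29.TC.T_DF) (hRX : Pool.Agent.H28.RC.T_RX)
    (hSY : Pool.Agent.H23.LB.T_SY) : Pool.Agent.H23.BG.F_BD := by
  intro n hn ε κ hε hε1 hκ hκε
  obtain ⟨C, hC0, hC⟩ := hBS n hn (ε / 2) κ (by linarith) (by linarith) hκ (by linarith)
  obtain ⟨c₀, hc₀, hc⟩ := hWL n hn
  refine ⟨c₀⁻¹ ^ 2 * C * 1 * 2 ^ n * 2 ^ n, by positivity,
    fun K _ _ hK f hf χ t B v hB hWt => ?_⟩
  obtain ⟨D⟩ := hSY K f hf
  have hX := fun i : D.ι => hRX K f (D.M i) hf (D.reps.1 i)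
  choose X₁ hX₁ hcard using hX
  have hd1 := one_le_disc (K := K)
  have hj1 := one_le_Nf hf
  have hk1 : 1 ≤ Nf K (⊤ : Ideal (𝓞 K)) := le_of_eq Nf_top.symm
  have hdv : (dvs K (⊤ : Ideal (𝓞 K))).card = 1 := dvs_top hDF
  have hCi1 := one_le_Ci χ.k χ.ν t
  have h5 : 1 ≤ |(discr K : ℝ)| * Nf K f * Ci χ.k χ.ν t :=
    one_le_mul_of_one_le_of_one_le (one_le_mul_of_one_le_of_one_le hd1 hj1) hCi1
  have hX1 : 1 ≤ Real.sqrt (|(discr K : ℝ)| * Nf K f * Ci χ.k χ.ν t) := Real.one_le_sqrt.2 h5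
  have hX2 : Real.sqrt (|(discr K : ℝ)| * Nf K f * Ci χ.k χ.ν t) ^ 2 ≤
      3 ^ n * (|(discr K : ℝ)| * Nf K f * Nf K (⊤ : Ideal (𝓞 K)) ^ 2 *
        HH (Hpar (cpar χ.k χ.ν t)) ^ 3) := by
    rw [Real.sq_sqrt (by linarith), Nf_top]
    calc |(discr K : ℝ)| * Nf K f * Ci χ.k χ.ν t ≤
        |(discr K : ℝ)| * Nf K f * (3 ^ n * HH (Hpar (cpar χ.k χ.ν t)) ^ 3) := by
          have := Ci_le hK χ.k χ.ν t χ.real_k
          gcongr
      _ = _ := by ring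
  have hH1 : 1 ≤ HH (Hpar (cpar χ.k χ.ν t)) := one_le_HH fun v => Hpar_one_le _ v
  have key := hC K hK D.ι D.M D.reps f ⊤ 1 (fun _ _ => 1) X₁ (cpar χ.k χ.ν t)
    (Hpar (cpar χ.k χ.ν t)) _ B (Nf K f) v (fun i => cg χ (D.M i)) true hf top_ne_bot le_rfl
    (fun i => cor_one hDF f (D.M i))
    hX₁ (Prm_cpar _ _ _) hX1 hX2 hB hWt (by linarith)
    (fun i => ⟨1, (hCG K _ χ (D.M i) hf (D.reps.1 i)).2.1⟩)
    (fun i p y ω _ _ => by
      obtain ⟨-, h2, -, h4, -⟩ := hCG K _ χ (D.M i) hf (D.reps.1 i)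
      have := split f (D.M i) (fun _ => 1) (cg χ (D.M i)) (cg χ (D.M i)) (X₁ i) (hX₁ i) h2 h4
        (fun x _ => (mul_one _).symm) (cpar χ.k χ.ν t) (Hpar (cpar χ.k χ.ν t)) p y ω
      rw [hcard i] at this
      exact this)
  have hU := hUP K _ hf χ D.ι D.M D.reps (cpar χ.k χ.ν t) (Hpar (cpar χ.k χ.ν t)) t v
    (Prm_cpar _ _ _) (Wt_bound hWt)
  have hS : ENNReal.ofReal ‖(torsionOrder K : ℂ) *
      WH K (cpar χ.k χ.ν t) (Hpar (cpar χ.k χ.ν t)) χ.k χ.ν t *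
        ∑' J : NZI K, χ.ψ J.1 * v (Ideal.absNorm J.1) *
          (Ideal.absNorm J.1 : ℂ) ^ (-(t * I : ℂ))‖ ≤
      ∑ i, ∫⁻ u in Fd K ×ˢ (univ : Set ℝ) ×ˢ An K,
        ENNReal.ofReal ‖∑' x : {x : K // x ∈ D.M i ∧ x ≠ 0}, cg χ (D.M i) x *
          v (Ideal.absNorm (idl K (D.M i) x)) *
            Wg (cpar χ.k χ.ν t) (Hpar (cpar χ.k χ.ν t)) pb x (yM K (D.M i) u.2.1 (zs true u.1))
              (om true u.2.2)‖ := by
    rw [← hU]
    refine sum_int_le _ _ _ _ fun i a => ?_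
    have e : ((t : ℂ) * (a.2.1 : ℂ)) = ((t * a.2.1 : ℝ) : ℂ) := by push_cast; rfl
    rw [norm_mul, norm_mul, norm_mul (ek _ _), ec_norm, ek_norm, e,
      Complex.norm_exp_ofReal_mul_I, one_mul, one_mul, one_mul]
  have hfin := (pow_le_pow_left₀ (zero_le) hS 2).trans key
  rw [← ENNReal.ofReal_pow (norm_nonneg _)] at hfin
  have hHR : 0 ≤ (classNumber K : ℝ) * regulator K :=
    mul_nonneg (Nat.cast_nonneg _) (regulator_pos K).le
  have hP0 : 0 ≤ (|(discr K : ℝ)| * Nf K f * Nf K (⊤ : Ideal (𝓞 K)) *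
      HH (Hpar (cpar χ.k χ.ν t))) ^ (ε / 2) := Real.rpow_nonneg (by positivity) _
  rw [ENNReal.ofReal_le_ofReal_iff (by
    have := cw_nonneg (K := K)
    positivity)] at hfin
  have hnorm : ‖(torsionOrder K : ℂ) *
      WH K (cpar χ.k χ.ν t) (Hpar (cpar χ.k χ.ν t)) χ.k χ.ν t *
        ∑' J : NZI K, χ.ψ J.1 * v (Ideal.absNorm J.1) *
          (Ideal.absNorm J.1 : ℂ) ^ (-(t * I : ℂ))‖ = (torsionOrder K : ℝ) *
      ‖WH K (cpar χ.k χ.ν t) (Hpar (cpar χ.k χ.ν t)) χ.k χ.ν t‖ * 1 *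
        ‖∑' J : NZI K, χ.ψ J.1 * v (Ideal.absNorm J.1) *
          (Ideal.absNorm J.1 : ℂ) ^ (-(t * I : ℂ))‖ := by
    rw [norm_mul, norm_mul, Complex.norm_natCast, mul_one]
  rw [hnorm] at hfin
  have hres := numer (n := n) (Cd := 1) (dv := 1) (d := |(discr K : ℝ)|) (j := Nf K f)
    (k := Nf K (⊤ : Ideal (𝓞 K))) hε hε1 hC0 hc₀ (one_le_tor (K := K)) (cw_le (K := K)) one_pos
    (norm_nonneg (∑' J : NZI K, χ.ψ J.1 * v (Ideal.absNorm J.1) *
      (Ideal.absNorm J.1 : ℂ) ^ (-(t * I : ℂ)))) hHR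
    zero_le_one hd1 hj1 hk1 hH1 (one_le_Ci χ.k χ.ν t) (by rw [Nf_top]; simp)
    (HH_le hK χ.k χ.ν t) (hc K hK χ.k χ.ν t χ.norm_zero) (B := B) (by
      rw [one_pow, mul_one (Nf K f)]
      rw [hdv, Nat.cast_one] at hfin
      exact hfin)
  rw [Nf_top, one_pow, mul_one (Nf K f)] at hres
  exact hres

end Pool.Agent.H68.BG.F_BD
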