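import Pool.Agent.H23.BG.TargetsP

/-!
# MP_52e316_nt, board brg_modules, row P_T4: the fourth power of the shifted sums
-/

set_option autoImplicit false

open NumberField NumberField.InfinitePlace NumberField.Units
  NumberField.Units.dirichletUnitTheorem MeasureTheory Set Filter Complex
open scoped nonZeroDivisors ENNReal

namespace Pool.Agent.H68.BG

/-- the expansion of the fourth power -/
private theorem t4_expand {K : Type} [Field K] [NumberField K] (g : K → ℂ) (S : Finset K)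
    (β : K → ℂ) (r : K) :
    ((‖∑ b ∈ S, β b * g (r + b)‖ ^ 4 : ℝ) : ℂ) =
      ∑ p ∈ Fintype.piFinset (fun _ : Fin 4 => S),
        (β (p 0) * β (p 1) * (starRingEnd ℂ) (β (p 2)) * (starRingEnd ℂ) (β (p 3))) *
        (g (r + p 0) * g (r + p 1) * (starRingEnd ℂ) (g (r + p 2)) *
          (starRingEnd ℂ) (g (r + p 3))) := by
  have h1 : ((‖∑ b ∈ S, β b * g (r + b)‖ ^ 4 : ℝ) : ℂ) =
      ∏ i : Fin 4, ∑ b ∈ S, (![fun b : K => β b * g (r + b), fun b : K => β b * g (r + b),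
        fun b : K => (starRingEnd ℂ) (β b * g (r + b)),
        fun b : K => (starRingEnd ℂ) (β b * g (r + b))] : Fin 4 → K → ℂ) i b := by
    rw [Fin.prod_univ_four]
    simp only [Matrix.cons_val_zero, Matrix.cons_val_one, Matrix.cons_val]
    rw [← map_sum]
    have h2 := Complex.mul_conj (∑ b ∈ S, β b * g (r + b))
    rw [Complex.normSq_eq_norm_sq] at h2
    have h3 : ((‖∑ b ∈ S, β b * g (r + b)‖ ^ 4 : ℝ) : ℂ) =
        ((‖∑ b ∈ S, β b * g (r + b)‖ ^ 2 : ℝ) : ℂ) *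
          ((‖∑ b ∈ S, β b * g (r + b)‖ ^ 2 : ℝ) : ℂ) := by
      push_cast
      ring
    rw [h3, ← h2]
    ring
  rw [h1, Finset.prod_univ_sum]
  refine Finset.sum_congr rfl fun p _ => ?_
  rw [Fin.prod_univ_four]
  simp only [Matrix.cons_val_zero, Matrix.cons_val_one, Matrix.cons_val, map_mul]
  ring

/-- Row P_T4 -/
theorem pf_P_T4 : Pool.Agent.H23.BG.P_T4 := by
  intro K _ _ X g D S β hD hβ
  have hq : Pool.Agent.H23.BG.q4 X g (S : Set K) =
      (∑ p ∈ Fintype.piFinset (fun _ : Fin 4 => S), ‖Pool.Agent.H23.BG.c4M K X g p‖) /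
        (S.card : ℝ) ^ 4 := by
    unfold Pool.Agent.H23.BG.q4
    rw [Set.ncard_coe_finset]
    congr 1
    have h1 : {b : Fin 4 → K | ∀ i, b i ∈ (S : Set K)} =
        ((Fintype.piFinset (fun _ : Fin 4 => S) : Finset (Fin 4 → K)) : Set (Fin 4 → K)) := by
      ext b
      simp
    rw [h1, finsum_mem_coe_finset]
  have hsum : ∑ r ∈ X, (‖∑ b ∈ S, β b * g (r + b)‖ / (S.card : ℝ)) ^ 4 =
      (∑ r ∈ X, ‖∑ b ∈ S, β b * g (r + b)‖ ^ 4) / (S.card : ℝ) ^ 4 := by
    rw [Finset.sum_div]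
    exact Finset.sum_congr rfl fun r _ => div_pow _ _ _
  rw [hq, hsum, ← mul_div_assoc]
  refine div_le_div_of_nonneg_right ?_ (by positivity)
  have h0 : 0 ≤ ∑ r ∈ X, ‖∑ b ∈ S, β b * g (r + b)‖ ^ 4 :=
    Finset.sum_nonneg fun r _ => by positivity
  have h1 : ((∑ r ∈ X, ‖∑ b ∈ S, β b * g (r + b)‖ ^ 4 : ℝ) : ℂ) =
      ∑ p ∈ Fintype.piFinset (fun _ : Fin 4 => S),
        (β (p 0) * β (p 1) * (starRingEnd ℂ) (β (p 2)) * (starRingEnd ℂ) (β (p 3))) *
        Pool.Agent.H23.BG.c4M K X g p := by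
    rw [Complex.ofReal_sum, Finset.sum_congr rfl fun r _ => t4_expand g S β r,
      Finset.sum_comm]
    refine Finset.sum_congr rfl fun p _ => ?_
    unfold Pool.Agent.H23.BG.c4M
    rw [Finset.mul_sum]
  have h2 : ∑ r ∈ X, ‖∑ b ∈ S, β b * g (r + b)‖ ^ 4 =
      ‖((∑ r ∈ X, ‖∑ b ∈ S, β b * g (r + b)‖ ^ 4 : ℝ) : ℂ)‖ := by
    rw [Complex.norm_real, Real.norm_of_nonneg h0]
  rw [h2, h1, Finset.mul_sum]
  refine (norm_sum_le _ _).trans (Finset.sum_le_sum fun p _ => ?_)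
  rw [norm_mul]
  refine mul_le_mul_of_nonneg_right ?_ (norm_nonneg _)
  rw [norm_mul, norm_mul, norm_mul, RCLike.norm_conj, RCLike.norm_conj]
  have e : D ^ 4 = D * D * D * D := by ring
  rw [e]
  have b0 := hβ (p 0)
  have b1 := hβ (p 1)
  have b2 := hβ (p 2)
  have b3 := hβ (p 3)
  gcongr

end Pool.Agent.H68.BG
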