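import Pool.Agent.H23.BG.TargetsW

/-!
# MP_52e316_nt, board brg_modules, row W_VA: the coefficients of the `L`-function vanish
-/

set_option autoImplicit false

open Polynomial

namespace Pool.Agent.H68.BG

open Pool.Agent.H23.BG (am lx rvp)

section

variable {F : Type} [Field F] [Fintype F]

private theorem va_finite (n : ℕ) : {g : F[X] | g.Monic ∧ g.natDegree = n}.Finite := by
  have h1 : Finite (degreeLT F (n + 1)) :=
    Finite.of_equiv _ (degreeLTEquiv F (n + 1)).symm.toEquiv
  have h2 : ((degreeLT F (n + 1) : Submodule F F[X]) : Set F[X]).Finite := Set.toFinite _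
  refine h2.subset ?_
  rintro g ⟨hg1, hg2⟩
  change g ∈ degreeLT F (n + 1)
  rw [mem_degreeLT, degree_eq_natDegree hg1.ne_zero, hg2]
  exact_mod_cast Nat.lt_succ_self n

omit [Fintype F] in
private theorem va_add {n : ℕ} {g w : F[X]} (hg : g.Monic ∧ g.natDegree = n)
    (hw : w.natDegree < n) (s : F) :
    (g + C s * w).Monic ∧ (g + C s * w).natDegree = n := by
  have h1 : (C s * w).natDegree < g.natDegree := by
    rw [hg.2]
    exact (natDegree_C_mul_le s w).trans_lt hw
  constructor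
  · exact hg.1.add_of_left (degree_lt_degree h1)
  · rw [natDegree_add_eq_left_of_natDegree_lt h1, hg.2]

/-- translation by the multiples of `w` -/
private theorem va_trans (Xf : F[X] → ℂ) (n : ℕ) (w : F[X]) (hw : w.natDegree < n)
    (h : ∀ g : F[X], g.Monic → g.natDegree = n → ∑ s : F, Xf (g + C s * w) = 0) :
    am F Xf n = 0 := by
  classical
  have hfin := va_finite (F := F) n
  have e0 : am F Xf n = ∑ g ∈ hfin.toFinset, Xf g := by
    unfold am
    exact finsum_mem_eq_finite_toFinset_sum _ hfin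
  have mem : ∀ g : F[X], g ∈ hfin.toFinset ↔ (g.Monic ∧ g.natDegree = n) := fun g => by
    rw [Set.Finite.mem_toFinset]
    rfl
  have e1 : ∀ s : F, ∑ g ∈ hfin.toFinset, Xf (g + C s * w) = am F Xf n := by
    intro s
    rw [e0]
    refine Finset.sum_nbij' (fun g => g + C s * w) (fun g => g + C (-s) * w) ?_ ?_ ?_ ?_ ?_
    · intro g hg
      exact (mem _).2 (va_add ((mem g).1 hg) hw s)
    · intro g hg
      exact (mem _).2 (va_add ((mem g).1 hg) hw (-s))
    · intro g _
      simp only [map_neg]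
      ring
    · intro g _
      simp only [map_neg]
      ring
    · intro g _
      rfl
  have e2 : (Fintype.card F : ℂ) * am F Xf n = 0 := by
    have h1 : ∑ s : F, ∑ g ∈ hfin.toFinset, Xf (g + C s * w) = (Fintype.card F : ℂ) * am F Xf n := by
      rw [Finset.sum_congr rfl fun s _ => e1 s, Finset.sum_const, nsmul_eq_mul]
      rfl
    rw [← h1, Finset.sum_comm]
    refine Finset.sum_eq_zero fun g hg => ?_
    exact h g ((mem g).1 hg).1 ((mem g).1 hg).2
  rcases mul_eq_zero.1 e2 with h1 | h1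
  · exact absurd h1 (by exact_mod_cast Fintype.card_ne_zero)
  · exact h1

private theorem va_sum (χ : MulChar F ℂ) (hχ : χ ≠ 1) (c u : F) (hc : c ≠ 0) :
    ∑ s : F, χ (c * (u + s)) = 0 := by
  rw [← MulChar.sum_eq_zero_of_ne_one hχ]
  exact Fintype.sum_equiv ((Equiv.addLeft u).trans (Equiv.mulLeft₀ c hc)) _ _ fun s => rfl

private theorem va_sum' (χ : MulChar F ℂ) (hχ : χ ≠ 1) (c u : F) (hc : c ≠ 0) :
    ∑ s : F, (starRingEnd ℂ) (χ (c * (u + s))) = 0 := by
  rw [← map_sum, va_sum χ hχ c u hc, map_zero]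

omit [Fintype F] in
private theorem va_w (x p q : F) (hp : x ≠ p) (hq : x ≠ q) :
    ∃ w : F[X], w.natDegree ≤ 2 ∧ w.eval x = 1 ∧ w.eval p = 0 ∧ w.eval q = 0 := by
  refine ⟨C ((x - p) * (x - q))⁻¹ * ((X - C p) * (X - C q)), ?_, ?_, ?_, ?_⟩
  · refine (natDegree_C_mul_le _ _).trans ?_
    refine natDegree_mul_le.trans ?_
    rw [natDegree_X_sub_C, natDegree_X_sub_C]
  · have h1 : x - p ≠ 0 := sub_ne_zero.2 hp
    have h2 : x - q ≠ 0 := sub_ne_zero.2 hq
    simp only [eval_mul, eval_C, eval_sub, eval_X]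
    exact inv_mul_cancel₀ (mul_ne_zero h1 h2)
  · simp
  · simp

private theorem va_ccc (χ : MulChar F ℂ) (v : F) :
    χ v * (starRingEnd ℂ) (χ v) * (starRingEnd ℂ) (χ v) = (starRingEnd ℂ) (χ v) := by
  by_cases hv : v = 0
  · rw [hv, MulChar.map_zero]
    simp
  · have h1 : ‖χ v‖ = 1 := by
      have h2 : χ v ^ (Fintype.card F - 1) = 1 := by
        rw [← map_pow, FiniteField.pow_card_sub_one_eq_one v hv, map_one]
      exact Complex.norm_eq_one_of_pow_eq_one h2 (by
        have := Fintype.one_lt_card (α := F)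
        omega)
    rw [Complex.mul_conj, Complex.normSq_eq_norm_sq, h1]
    simp

end

/-- Row W_VA -/
theorem pf_W_VA : Pool.Agent.H23.BG.W_VA := by
  intro F _ _ χ b₁ b₂ b₃ hχ h1 h2 h3
  constructor
  · unfold am
    have e : {g : F[X] | g.Monic ∧ g.natDegree = 0} = {1} := by
      ext g
      simp only [Set.mem_ofPred_eq, Set.mem_singleton_iff]
      constructor
      · rintro ⟨hg1, hg2⟩
        exact hg1.natDegree_eq_zero.1 hg2
      · rintro rfl
        exact ⟨monic_one, natDegree_one⟩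
    rw [e, finsum_mem_singleton]
    unfold lx rvp
    simp
  · intro n hn
    have hev : ∀ (b : F) (g w : F[X]) (s : F), g.Monic → g.natDegree = n → w.natDegree < n →
        rvp b (g + C s * w) = (-b) ^ n * (g.eval (-b⁻¹) + s * w.eval (-b⁻¹)) := by
      intro b g w s hg1 hg2 hw
      unfold rvp
      rw [(va_add ⟨hg1, hg2⟩ hw s).2, eval_add, eval_mul, eval_C]
    have hc : ∀ b : F, b ≠ 0 → (-b) ^ n ≠ 0 := fun b hb => pow_ne_zero _ (neg_ne_zero.2 hb)
    have hinj : ∀ b b' : F, b ≠ b' → (-b⁻¹) ≠ (-b'⁻¹) := by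
      intro b b' hb h
      exact hb (inv_injective (neg_injective h))
    by_cases h12 : b₁ = b₂
    · subst h12
      by_cases h13 : b₁ = b₃
      · subst h13
        refine va_trans _ n 1 (by rw [natDegree_one]; omega) fun g hg1 hg2 => ?_
        have e : ∀ s : F, lx χ b₁ b₁ b₁ (g + C s * 1) =
            (starRingEnd ℂ) (χ ((-b₁) ^ n * (g.eval (-b₁⁻¹) + s))) := by
          intro s
          unfold lx
          rw [hev b₁ g 1 s hg1 hg2 (by rw [natDegree_one]; omega), eval_one, mul_one]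
          exact va_ccc χ _
        rw [Finset.sum_congr rfl fun s _ => e s]
        exact va_sum' χ hχ _ _ (hc b₁ h1)
      · obtain ⟨w, w1, w2, w3, w4⟩ := va_w (-b₃⁻¹) (-b₁⁻¹) (-b₁⁻¹)
          (hinj _ _ (Ne.symm h13)) (hinj _ _ (Ne.symm h13))
        have hw : w.natDegree < n := by omega
        refine va_trans _ n w hw fun g hg1 hg2 => ?_
        have e : ∀ s : F, lx χ b₁ b₁ b₃ (g + C s * w) =
            (χ ((-b₁) ^ n * g.eval (-b₁⁻¹)) *
              (starRingEnd ℂ) (χ ((-b₁) ^ n * g.eval (-b₁⁻¹)))) *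
            (starRingEnd ℂ) (χ ((-b₃) ^ n * (g.eval (-b₃⁻¹) + s))) := by
          intro s
          unfold lx
          rw [hev b₁ g w s hg1 hg2 hw, hev b₃ g w s hg1 hg2 hw, w2, w3, mul_zero, add_zero,
            mul_one]
        rw [Finset.sum_congr rfl fun s _ => e s, ← Finset.mul_sum,
          va_sum' χ hχ _ _ (hc b₃ h3), mul_zero]
    · by_cases h13 : b₁ = b₃
      · subst h13
        obtain ⟨w, w1, w2, w3, w4⟩ := va_w (-b₂⁻¹) (-b₁⁻¹) (-b₁⁻¹)
          (hinj _ _ (Ne.symm h12)) (hinj _ _ (Ne.symm h12))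
        have hw : w.natDegree < n := by omega
        refine va_trans _ n w hw fun g hg1 hg2 => ?_
        have e : ∀ s : F, lx χ b₁ b₂ b₁ (g + C s * w) =
            (χ ((-b₁) ^ n * g.eval (-b₁⁻¹)) *
              (starRingEnd ℂ) (χ ((-b₁) ^ n * g.eval (-b₁⁻¹)))) *
            (starRingEnd ℂ) (χ ((-b₂) ^ n * (g.eval (-b₂⁻¹) + s))) := by
          intro s
          unfold lx
          rw [hev b₁ g w s hg1 hg2 hw, hev b₂ g w s hg1 hg2 hw, w2, w3, mul_zero, add_zero,
            mul_one]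
          ring
        rw [Finset.sum_congr rfl fun s _ => e s, ← Finset.mul_sum,
          va_sum' χ hχ _ _ (hc b₂ h2), mul_zero]
      · obtain ⟨w, w1, w2, w3, w4⟩ := va_w (-b₁⁻¹) (-b₂⁻¹) (-b₃⁻¹)
          (hinj _ _ h12) (hinj _ _ h13)
        have hw : w.natDegree < n := by omega
        refine va_trans _ n w hw fun g hg1 hg2 => ?_
        have e : ∀ s : F, lx χ b₁ b₂ b₃ (g + C s * w) =
            ((starRingEnd ℂ) (χ ((-b₂) ^ n * g.eval (-b₂⁻¹))) *
              (starRingEnd ℂ) (χ ((-b₃) ^ n * g.eval (-b₃⁻¹)))) *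
            χ ((-b₁) ^ n * (g.eval (-b₁⁻¹) + s)) := by
          intro s
          unfold lx
          rw [hev b₁ g w s hg1 hg2 hw, hev b₂ g w s hg1 hg2 hw, hev b₃ g w s hg1 hg2 hw,
            w2, w3, w4, mul_zero, add_zero, mul_one, add_zero]
          ring
        rw [Finset.sum_congr rfl fun s _ => e s, ← Finset.mul_sum,
          va_sum χ hχ _ _ (hc b₁ h1), mul_zero]

end Pool.Agent.H68.BG
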