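import Pool.Agent.H68.BG.Conj

/-!
# Local gadget reductions to digraphs
-/

namespace Pool.Agent.H68.BP

variable {σ τ : Sig} {A B X Y : Type}

/-- Local vertices of a constraint with symbol `l`: `a` vertices for each position and `b` private
vertices. -/
def LV (σ : Sig) (l : Fin σ.m) (a b : ℕ) : Type := (Fin (σ.ar l) × Fin a) ⊕ Fin b

/-- A local gadget reduction to digraphs. -/
structure Gadget (σ : Sig) where
  a : ℕ
  b : ℕ
  E0 : List (Fin a × Fin a)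
  E1 : (l : Fin σ.m) → List (LV σ l a b × LV σ l a b)

/-- Satisfiability of the graph of the instance `𝕏` in `(G; E)`. -/
def Gadget.Sat (g : Gadget σ) {G : Type} (E : G → G → Prop) {n : ℕ} (𝕏 : Str σ (Fin n)) : Prop :=
  ∃ f : Fin n → Fin g.a → G, (∀ x, ∀ e ∈ g.E0, E (f x e.1) (f x e.2)) ∧
    ∀ (l : Fin σ.m) (t : Fin (σ.ar l) → Fin n), 𝕏 l t → ∃ h : Fin g.b → G, ∀ e ∈ g.E1 l,
      E (Sum.elim (fun p => f (t p.1) p.2) h e.1) (Sum.elim (fun p => f (t p.1) p.2) h e.2)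

/-- `CSP(𝔸)` reduces to `CSP(G; E)` by the gadget `g`. -/
def Gadget.Reduces (g : Gadget σ) (𝔸 : Str σ A) {G : Type} (E : G → G → Prop) : Prop :=
  ∀ (n : ℕ) (𝕏 : Str σ (Fin n)), (∃ f : Fin n → A, IsHom 𝕏 𝔸 f) ↔ g.Sat E 𝕏

end Pool.Agent.H68.BP
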