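import Pool.Agent.H68.BG.PF
import Pool.Agent.H68.BG.Defs

/-!
# Gadgets from definitions without equality
-/

namespace Pool.Agent.H68.BP

open Function Pool.Agent.H68.BG

theorem gadget_of_pfd {σ : Sig} {G : Type} [Nonempty G] {E : G → G → Prop} (a : ℕ)
    (S : ∀ l : Fin σ.m, Set (Fin (σ.ar l) × Fin a → G)) (hS : ∀ l, PFD E (S l)) :
    ∃ g : Gadget σ, ∀ (n : ℕ) (𝕏 : Str σ (Fin n)), g.Sat E 𝕏 ↔
      ∃ f : Fin n → Fin a → G, ∀ l t, 𝕏 l t →
        (fun p : Fin (σ.ar l) × Fin a => f (t p.1) p.2) ∈ S l := by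
  classical
  choose Q hQ A hA using hS
  obtain ⟨b, ⟨e⟩⟩ := Finite.exists_equiv_fin (Σ l, Q l)
  let ι : ∀ l, Q l → Fin b := fun l q => e ⟨l, q⟩
  have hι : ∀ l, Injective (ι l) := by
    intro l q q' h
    have := e.injective h
    exact eq_of_heq (Sigma.mk.inj this).2
  let em : ∀ l, (Fin (σ.ar l) × Fin a) ⊕ Q l → LV σ l a b := fun l => Sum.map id (ι l)
  have hfin : ∀ l, {p : LV σ l a b × LV σ l a b | ∃ u v, A l u v ∧ p = (em l u, em l v)}.Finite := by
    intro l
    have : Finite (LV σ l a b) := inferInstanceAs (Finite ((Fin (σ.ar l) × Fin a) ⊕ Fin b))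
    exact Set.toFinite _
  refine ⟨⟨a, b, [], fun l => (hfin l).toFinset.toList⟩, fun n 𝕏 => ?_⟩
  have hmem : ∀ l p, p ∈ (hfin l).toFinset.toList ↔
      ∃ u v, A l u v ∧ p = (em l u, em l v) := by
    intro l p
    rw [Finset.mem_toList, Set.Finite.mem_toFinset]
    rfl
  constructor
  · rintro ⟨f, -, hf⟩
    refine ⟨f, fun l t ht => ?_⟩
    obtain ⟨h, hh⟩ := hf l t ht
    rw [hA]
    refine ⟨fun q => h (ι l q), fun u v huv => ?_⟩
    have h1 := hh (em l u, em l v) ((hmem l _).2 ⟨u, v, huv, rfl⟩)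
    have key : ∀ u, (Sum.elim (fun p : Fin (σ.ar l) × Fin a => f (t p.1) p.2) h (em l u) : G) =
        Sum.elim (fun p : Fin (σ.ar l) × Fin a => f (t p.1) p.2) (fun q => h (ι l q)) u := by
      rintro (i | q) <;> rfl
    rw [← key, ← key]
    exact h1
  · rintro ⟨f, hf⟩
    refine ⟨f, by simp, fun l t ht => ?_⟩
    obtain ⟨h, hh⟩ := (hA l _).1 (hf l t ht)
    refine ⟨extend (ι l) h (fun _ => Classical.arbitrary G), fun p hp => ?_⟩
    obtain ⟨u, v, huv, rfl⟩ := (hmem l p).1 hp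
    have key : ∀ u, (Sum.elim (fun p : Fin (σ.ar l) × Fin a => f (t p.1) p.2)
        (extend (ι l) h (fun _ => Classical.arbitrary G)) (em l u) : G) =
        Sum.elim (fun p : Fin (σ.ar l) × Fin a => f (t p.1) p.2) h u := by
      rintro (i | q)
      · rfl
      · change extend (ι l) h (fun _ => Classical.arbitrary G) (ι l q) = h q
        exact (hι l).extend_apply _ _ _
    have := hh u v huv
    rw [← key, ← key] at this
    exact this

end Pool.Agent.H68.BP
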