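import Pool.Agent.H68.BG.Trans

/-!
# From Mathlib's languages back to signatures
-/

namespace Pool.Agent.H68.BP

open FirstOrder FirstOrder.Language Function
open Pool.Agent.H17

section

variable {L : FirstOrder.Language.{0, 0}} {m : ℕ} (e : (Σ n, L.Relations n) ≃ Fin m)

/-- the signature of a finite language -/
def sigL : Sig := ⟨m, fun l => (e.symm l).1⟩

/-- the structure -/
def toStr (A : Type) [L.Structure A] : Str (sigL e) A := fun l x => Structure.RelMap (e.symm l).2 x

theorem relMap_iff {A B : Type} [L.Structure A] [L.Structure B] (f : A → B) :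
    (∀ l x, toStr e A l x ↔ toStr e B l (fun i => f (x i))) ↔
      ∀ (n : ℕ) (R : L.Relations n) (x : Fin n → A),
        Structure.RelMap R x ↔ Structure.RelMap R (fun i => f (x i)) := by
  constructor
  · intro h
    have key : ∀ (r : Σ n, L.Relations n) (x : Fin r.1 → A),
        Structure.RelMap r.2 x ↔ Structure.RelMap r.2 (fun i => f (x i)) := by
      intro r
      obtain ⟨l, rfl⟩ := e.symm.surjective r
      exact h l
    exact fun n R x => key ⟨n, R⟩ x
  · intro h l x
    exact h _ _ _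

variable [L.IsRelational]

theorem nonempty_emb' {A B : Type} [L.Structure A] [L.Structure B] :
    Nonempty (L.Embedding A B) ↔ Embeds (toStr e A) (toStr e B) := by
  constructor
  · rintro ⟨f⟩
    exact ⟨f, f.injective, (relMap_iff e f).2 fun n R x => (f.map_rel R x).symm⟩
  · rintro ⟨f, hf, hf2⟩
    exact ⟨{ toFun := f
             inj' := hf
             map_fun' := fun F => isEmptyElim F
             map_rel' := fun {n} R x => ((relMap_iff e f).1 hf2 n R x).symm }⟩

/-- every structure comes from a structure of Mathlib -/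
theorem exists_lstr {A : Type} (𝔸 : Str (sigL e) A) : ∃ s : L.Structure A,
    ∀ l x, @toStr L m e A s l x ↔ 𝔸 l x := by
  have hn : ∀ (n : ℕ) (R : L.Relations n), (sigL e).ar (e ⟨n, R⟩) = n := by
    intro n R
    change (e.symm (e ⟨n, R⟩)).1 = n
    rw [Equiv.symm_apply_apply]
  refine ⟨{ funMap := fun f => isEmptyElim f
            RelMap := fun {n} R x => 𝔸 (e ⟨n, R⟩) (fun i => x (Fin.cast (hn n R) i)) }, ?_⟩
  intro l x
  change 𝔸 (e ⟨(e.symm l).1, (e.symm l).2⟩) (fun i => x (Fin.cast (hn _ (e.symm l).2) i)) ↔ 𝔸 l x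
  have key : ∀ (l' : Fin m) (h : l' = l) (h' : (sigL e).ar l' = (sigL e).ar l),
      𝔸 l' (fun i => x (Fin.cast h' i)) ↔ 𝔸 l x := by
    intro l' h h'
    subst h
    exact Iff.rfl
  exact key _ (e.apply_symm_apply l) _

theorem homog_back {A : Type} [L.Structure A] (h : L.IsUltrahomogeneous A) :
    Homogeneous (toStr e A) := by
  intro F f hf
  obtain ⟨g, hg⟩ := DG.homog_tuple h (fun x : F => (x : A)) f
    ⟨fun i j => ⟨fun h => congrArg f (Subtype.ext h), fun h => congrArg Subtype.val (hf.1 h)⟩, by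
      have h1 : ∀ (r : Σ n, L.Relations n) (x : Fin r.1 → F),
          Structure.RelMap r.2 (fun i => (x i : A)) ↔ Structure.RelMap r.2 (fun i => f (x i)) := by
        intro r
        obtain ⟨l, rfl⟩ := e.symm.surjective r
        exact hf.2 l
      intro n R t
      exact h1 ⟨n, R⟩ t⟩
  exact ⟨g.toEquiv, fun l x => (g.map_rel _ _).symm, fun x => hg x⟩

theorem embeds_congr {σ : Sig} {A B : Type} {𝔸 𝔸' : Str σ A} {𝔹 𝔹' : Str σ B}
    (h : ∀ l x, 𝔸 l x ↔ 𝔸' l x) (h' : ∀ l x, 𝔹 l x ↔ 𝔹' l x) : Embeds 𝔸 𝔹 ↔ Embeds 𝔸' 𝔹' := by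
  constructor
  · exact embeds_equiv (Equiv.refl A) (Equiv.refl B) (fun l x => (h l x).symm) h'
  · exact embeds_equiv (Equiv.refl A) (Equiv.refl B) h (fun l x => (h' l x).symm)

theorem finBdd_back {A : Type} [L.Structure A] (h : DG.FinitelyBounded L A) :
    FinitelyBounded (toStr e A) := by
  classical
  obtain ⟨ι, hι, N, hN, sN, h⟩ := h
  have := Fintype.ofFinite ι
  have h1 : ∀ i, ∃ n, Nonempty (N i ≃ Fin n) := fun i => Finite.exists_equiv_fin (N i)
  choose n hn using h1
  have e' : ∀ i, N i ≃ Fin (n i) := fun i => (hn i).some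
  let 𝕐 : ∀ i, Str (sigL e) (Fin (n i)) := fun i l x =>
    @toStr L m e (N i) (sN i) l (fun j => (e' i).symm (x j))
  refine ⟨(Finset.univ : Finset ι).toList.map (fun i => ⟨n i, 𝕐 i⟩), fun k 𝕏 => ?_⟩
  obtain ⟨s, hs⟩ := exists_lstr e 𝕏
  let _ := s
  have h2 : Embeds 𝕏 (toStr e A) ↔ Nonempty (L.Embedding (Fin k) A) := by
    rw [nonempty_emb' e]
    exact embeds_congr (fun l x => (hs l x).symm) (fun l x => Iff.rfl)
  rw [h2, h]
  have h3 : ∀ i, Embeds (𝕐 i) 𝕏 ↔ Nonempty (@FirstOrder.Language.Embedding L (N i) (Fin k)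
      (sN i) _) := by
    intro i
    let _ := sN i
    rw [nonempty_emb' e]
    constructor
    · exact embeds_equiv (e' i) (Equiv.refl _) (fun l x => by simp [𝕐])
        (fun l x => (hs l x).symm)
    · exact embeds_equiv (e' i).symm (Equiv.refl _) (fun l x => Iff.rfl) (fun l x => hs l x)
  constructor
  · intro h4 Y hY
    obtain ⟨i, -, rfl⟩ := List.mem_map.1 hY
    have := h4 i
    rw [← not_nonempty_iff] at this
    rw [h3]
    exact this
  · intro h4 i
    rw [← not_nonempty_iff, ← h3]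
    exact h4 ⟨n i, 𝕐 i⟩ (List.mem_map.2 ⟨i, Finset.mem_toList.2 (Finset.mem_univ i), rfl⟩)

theorem reduct_back {G : Type} {E : G → G → Prop} [L.Structure G]
    (h : @DG.IsReduct DG.Dig L G (DG.digStr E) _) : IsReduct (graph E) (toStr e G) := by
  obtain ⟨φ, -, h⟩ := h
  have h2 := h 2 DG.ArcRel.arc
  set R := φ 2 DG.ArcRel.arc with hR
  have hn : (sigL e).ar (e ⟨2, R⟩) = 2 := by
    change (e.symm (e ⟨2, R⟩)).1 = 2
    rw [Equiv.symm_apply_apply]
  refine ⟨fun _ => e ⟨2, R⟩, fun a b _ => Subsingleton.elim (α := Fin 1) a b, fun l => ⟨hn, ?_⟩⟩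
  intro x
  have key : ∀ (r : Σ n, L.Relations n) (hr : r = ⟨2, R⟩) (h' : r.1 = 2) (x : Fin 2 → G),
      Structure.RelMap r.2 (fun i => x (Fin.cast h' i)) ↔ Structure.RelMap R x := by
    intro r hr h' x
    subst hr
    exact Iff.rfl
  exact (h2 x).trans (key _ (e.symm_apply_apply _) hn x).symm

end

theorem isAut_graph {G : Type} {E : G → G → Prop} (g : G ≃ G) :
    IsAut (graph E) g ↔ DG.IsAut E g := by
  constructor
  · intro h u v
    exact (h (0 : Fin 1) (![u, v] : Fin 2 → G)).symm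
  · intro h l x
    exact (h _ _).symm

theorem noAlg_graph {G : Type} {E : G → G → Prop} (h : DG.NoAlgebraicity E) :
    NoAlgebraicity (graph E) := by
  intro F d hd
  have h1 := h F d hd
  have e : {e | ∃ g : G ≃ G, IsAut (graph E) g ∧ (∀ x ∈ F, g x = x) ∧ g d = e} =
      {y : G | ∃ g : G ≃ G, DG.IsAut E g ∧ (∀ s ∈ F, g s = s) ∧ g d = y} := by
    ext y
    simp only [Set.mem_ofPred_eq, isAut_graph]
  rw [e]
  exact h1

theorem inScope_back {G : Type} {E : G → G → Prop} (h : @DG.InScope DG.Dig G (DG.digStr E)) :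
    InScope (graph E) := by
  obtain ⟨-, hcount, hne, L', sL', ⟨hrel, hfin⟩, hU, hFB, hRed⟩ := h
  obtain ⟨m, ⟨e⟩⟩ := Finite.exists_equiv_fin (Σ n, L'.Relations n)
  exact ⟨hcount, hne, sigL e, toStr e G, homog_back e hU, finBdd_back e hFB, reduct_back e hRed⟩

theorem kHomog_back {G : Type} {E : G → G → Prop} {k : ℕ} (h : DG.KHomogeneous k E) :
    KHomogeneous k E := by
  intro n x y hn hx hy hxy
  obtain ⟨g, hg, hg2⟩ := h n x y hn hx hy hxy
  exact ⟨g, (isAut_graph g).2 hg, hg2⟩

end Pool.Agent.H68.BP
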