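import Pool.Agent.H68.BG.K

/-!
# The construction, in terms of Mathlib's languages
-/

namespace Pool.Agent.H68.BG

open FirstOrder FirstOrder.Language Pool.Agent.H74.Stub Function
open Pool.Agent.H17 Pool.Agent.H17.DG Pool.Agent.H17.UG

theorem construction (L : FirstOrder.Language.{0, 0}) (A : Type) [L.Structure A]
    (hA : DG.InScope L A) :
    ∃ (G : Type) (E : G → G → Prop), GraphTemplate G E ∧
      (@PPConstructs Dig G (digStr E) Dig (Fin 3) K3 ↔ @PPConstructs L A _ Dig (Fin 3) K3) ∧
      ∃ S : ∀ n, L.Relations n → Set (Fin n × Fin 1 → G), (∀ n R, PFD E (S n R)) ∧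
        ∀ (X : Type) [L.Structure X], Nonempty (L.Hom X A) ↔
          ∃ f : X → Fin 1 → G, ∀ (n : ℕ) (R : L.Relations n) (t : Fin n → X),
            Structure.RelMap R t → (fun p : Fin n × Fin 1 => f (t p.1) p.2) ∈ S n R := by
  classical
  have hA' := hA
  obtain ⟨⟨hrel, hfin⟩, hcount, hne, LB0, sB0, hLB0, hB0, hFB0, hR0⟩ := hA
  have hrelB0 := hLB0.1
  obtain ⟨K, hK, CK, hCK⟩ := exists_isGen 0 A (sm_pos L A 0) (QQ L A 0) (QQ_loc L A 0)
  have hsm := sm_large L A 0
  have hcommon : ∀ a : A, ∃ z : K, CK.col (fun _ => z) = a := by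
    intro a
    obtain ⟨z, -, h1, -⟩ := hCK.common (QQ_loc L A 0) (n := 0) (by omega) (fun i => i.elim0) a
    refine ⟨z 0, ?_⟩
    rw [← h1]
    congr 1
    funext j
    have hj : j = 0 := Fin.ext (by omega)
    rw [hj]
  have hKne : Nonempty K := by
    obtain ⟨z, -⟩ := hcommon (Classical.arbitrary A)
    exact ⟨z⟩
  have hppA : @PPConstructs Dig K (digStr CK.arc) L A _ := ppConstructs_template hCK
  have hK3 : @PPConstructs Dig K (digStr CK.arc) Dig (Fin 3) K3 →
      @PPConstructs L A _ Dig (Fin 3) K3 := fun h => k3_of_generic (lQ L A 0) hCK (by omega) h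
  have hscK : @DG.InScope Dig K (digStr CK.arc) := by
    let _ := digStr CK.arc
    exact ⟨finRel_dig, hK, hKne, LBp LB0 0, strB LB0 CK, finRel_LBp hLB0 0, homogB hB0 hCK hR0,
      finitelyBounded hLB0 hB0 hFB0 hCK hR0, reductB⟩
  have hasym : ∀ x y, CK.arc x y → ¬ CK.arc y x := CK.asymm
  obtain ⟨-, -, -, LB, sB, hLB, hB, hFB, hR⟩ := hscK
  have hrelB := hLB.1
  obtain ⟨G, hG, C, hC⟩ := exists_isGenU K CK.arc
  have hno := noAlgU hC
  obtain ⟨g, -, hg⟩ := hC.reps CK.arc id (fun _ _ h => h)
  have hGne : Nonempty G := ⟨g (Classical.arbitrary K)⟩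
  have hinf : Infinite G := by
    obtain ⟨x⟩ := hGne
    have h1 := hno ∅ x (by simp)
    exact Set.infinite_univ_iff.1 (h1.mono (Set.subset_univ _))
  have hpp : @PPConstructs Dig G (digStr C.E) Dig K (digStr CK.arc) := ppConstructs_dig hC
  have hppA' : @PPConstructs Dig G (digStr C.E) L A _ := by
    let _ := digStr C.E
    let _ := digStr CK.arc
    exact ppConstructs_trans hpp hppA
  have hirr : ∀ x, ¬ C.E x x := irreflU hC.good (fun a h => hasym a a h h)
  refine ⟨G, C.E, ⟨?_, hinf, C.symm, hirr, hno⟩, ?_, ?_⟩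
  · let _ := digStr C.E
    exact ⟨finRel_dig, hG, hGne, LU LB, strU LB C, finRel_LU hLB, homogU hB hC hR,
      finitelyBoundedU hLB hB hFB hC hR, reductU⟩
  · constructor
    · intro h
      exact hK3 (k3_of_genericU hC h)
    · intro h
      let _ := digStr C.E
      let _ := K3
      exact ppConstructs_trans hppA' h
  · -- the relations
    have hrt : ∀ r : NR L A, PFD CK.arc {x : Fin r.1.1 × Fin (0 + 1) → K |
        RT L CK r (fun i j => x (i, j))} := fun r => pfd_rt r
    choose Q hQ P hP using hrt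
    let S : ∀ n, L.Relations n → Set (Fin n × Fin 1 → G) := fun n R =>
      if h : ∃ x : Fin n → A, Structure.RelMap R x then
        {x | PF (P ⟨⟨n, R⟩, h⟩) (ArcU C.E) x} else ∅
    have hS1 : ∀ n (R : L.Relations n) (h : ∃ x : Fin n → A, Structure.RelMap R x),
        S n R = {x | PF (P ⟨⟨n, R⟩, h⟩) (ArcU C.E) x} := fun n R h => dif_pos h
    have hS2 : ∀ n (R : L.Relations n) (h : ¬ ∃ x : Fin n → A, Structure.RelMap R x),
        S n R = ∅ := fun n R h => dif_neg h
    refine ⟨S, fun n R => ?_, fun X _ => ?_⟩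
    · by_cases h : ∃ x : Fin n → A, Structure.RelMap R x
      · rw [hS1 n R h]
        exact pfd_comp (pfd_arcU C.E) ⟨Q _, hQ _, P ⟨⟨n, R⟩, h⟩, fun x => Iff.rfl⟩
      · rw [hS2 n R h]
        exact pfd_empty hirr
    · constructor
      · rintro ⟨φ⟩
        choose κ hκ using hcommon
        refine ⟨fun x _ => g (κ (φ x)), fun n R t ht => ?_⟩
        have h1 : Structure.RelMap R (fun i => φ (t i)) := φ.map_rel' R t ht
        have h : ∃ x : Fin n → A, Structure.RelMap R x := ⟨_, h1⟩
        rw [hS1 n R h]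
        have h2 : RT L CK ⟨⟨n, R⟩, h⟩ (fun i _ => κ (φ (t i))) := by
          rw [rt_iff hCK]
          refine ⟨fun i j j' hj => ?_, ?_⟩
          · have h3 := j'.2
            have h4 : (j : ℕ) < j' := hj
            omega
          · have e : (fun i => CK.col (fun _ => κ (φ (t i)))) = fun i => φ (t i) :=
              funext fun i => hκ _
            change Structure.RelMap R (fun i => CK.col (fun _ => κ (φ (t i))))
            rw [e]
            exact h1
        have h3 := (hP ⟨⟨n, R⟩, h⟩ (fun p => κ (φ (t p.1)))).1 h2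
        exact h3.map hg
      · rintro ⟨f, hf⟩
        refine ⟨{ toFun := fun x => CK.col (fun j => C.c (f x j))
                  map_fun' := fun F => isEmptyElim F
                  map_rel' := ?_ }⟩
        intro n R t ht
        have h1 := hf n R t ht
        by_cases h : ∃ x : Fin n → A, Structure.RelMap R x
        · rw [hS1 n R h] at h1
          have h2 : PF (P ⟨⟨n, R⟩, h⟩) CK.arc (fun p => C.c (f (t p.1) p.2)) :=
            PF.map (F := ArcU C.E) (φ := C.c) (fun a b hab => arcU_col hC.good hab) h1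
          have h3 := (hP ⟨⟨n, R⟩, h⟩ _).2 h2
          exact ((rt_iff hCK _ _).1 h3).2
        · rw [hS2 n R h] at h1
          exact absurd h1 (Set.notMem_empty _)

end Pool.Agent.H68.BG
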