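import Pool.Agent.H68.BG.K3
import Pool.Agent.H68.BG.Asm
import Pool.Agent.H68.BG.Lang
import Pool.Agent.H68.BG.Main

/-!
# The equivalences
-/

namespace Pool.Agent.H68.BP

open FirstOrder FirstOrder.Language Function
open Pool.Agent.H17

theorem reduces_of_hom {σ : Sig} {D G : Type} [Nonempty G] {E : G → G → Prop} (𝔸 : Str σ D)
    (a : ℕ) (S : ∀ n, (Lan σ).Relations n → Set (Fin n × Fin a → G))
    (hS : ∀ n R, Pool.Agent.H68.BG.PFD E (S n R))
    (hhom : ∀ (X : Type) [(Lan σ).Structure X],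
      Nonempty (@FirstOrder.Language.Hom (Lan σ) X D _ (lstr 𝔸)) ↔
        ∃ f : X → Fin a → G, ∀ (n : ℕ) (R : (Lan σ).Relations n) (t : Fin n → X),
          Structure.RelMap R t → (fun p : Fin n × Fin a => f (t p.1) p.2) ∈ S n R) :
    ∃ g : Gadget σ, g.Reduces 𝔸 E := by
  obtain ⟨g, hg⟩ := gadget_of_pfd (σ := σ) (E := E) a
    (fun l => S (σ.ar l) (⟨l, rfl⟩ : {l' : Fin σ.m // σ.ar l' = σ.ar l})) (fun l => hS _ _)
  refine ⟨g, fun n 𝕏 => ?_⟩
  rw [hg]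
  let _ := lstr 𝔸
  let _ := lstr 𝕏
  have h4 := hhom (Fin n)
  have h5 : (∃ f : Fin n → D, IsHom 𝕏 𝔸 f) ↔ Nonempty ((Lan σ).Hom (Fin n) D) := by
    constructor
    · rintro ⟨f, hf⟩
      exact ⟨{ toFun := f
               map_fun' := fun F => isEmptyElim F
               map_rel' := fun R x hx => hf R.1 _ hx }⟩
    · rintro ⟨f⟩
      exact ⟨f, fun l x hx => f.map_rel' (L := Lan σ)
        (⟨l, rfl⟩ : {l' : Fin σ.m // σ.ar l' = σ.ar l}) x hx⟩
  rw [h5, h4]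
  refine exists_congr fun f => ?_
  constructor
  · intro h l t ht
    exact h _ (⟨l, rfl⟩ : {l' : Fin σ.m // σ.ar l' = σ.ar l}) t ht
  · rintro h n' ⟨l, rfl⟩ t ht
    exact h l t ht

/-- the reduction to undirected graphs -/
theorem exists_graph {σ : Sig} {D : Type} {𝔸 : Str σ D} (h : InScope 𝔸) :
    ∃ (G : Type) (E : G → G → Prop), GraphTemplate E ∧
      (PPConstructsK3 (graph E) ↔ PPConstructsK3 𝔸) ∧
      N793a5b8e.ManyOneReducible (CSP 𝔸) (CSP (graph E)) := by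
  obtain ⟨G, E, ⟨hsc, hinf, hsym, hirr, hno⟩, hK3, S, hS, hhom⟩ :=
    @Pool.Agent.H68.BG.construction (Lan σ) D (lstr 𝔸) (inScope_lan h)
  obtain ⟨g, hg⟩ := reduces_of_hom 𝔸 1 S hS hhom
  have : Nonempty G := inferInstance
  exact ⟨G, E, ⟨inScope_back hsc, hinf, hsym, hirr, noAlg_graph hno⟩,
    ⟨fun h5 => k3_lan (hK3.1 (k3_graph h5)), fun h5 => k3_graph' (hK3.2 (k3_lan' h5))⟩,
    manyOne_of_gadget hirr hg⟩

/-- the reduction to oriented graphs -/
theorem exists_oriented (k : ℕ) {σ : Sig} {D : Type} {𝔸 : Str σ D} (h : InScope 𝔸) :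
    ∃ (G : Type) (E : G → G → Prop), OrientedTemplate k E ∧
      (PPConstructsK3 (graph E) ↔ PPConstructsK3 𝔸) ∧
      N793a5b8e.ManyOneReducible (CSP 𝔸) (CSP (graph E)) := by
  obtain ⟨G, E, ⟨hsc, hinf, hasym, hkh, hno⟩, hK3, S, hS, hhom⟩ :=
    @Pool.Agent.H68.BG.constructionO k (Lan σ) D (lstr 𝔸) (inScope_lan h)
  obtain ⟨g, hg⟩ := reduces_of_hom 𝔸 (k + 1) S hS hhom
  have hirr : ∀ x, ¬ E x x := fun x h => hasym x x h h
  exact ⟨G, E, ⟨inScope_back hsc, hinf, hasym, kHomog_back hkh, noAlg_graph hno⟩,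
    ⟨fun h5 => k3_lan (hK3.1 (k3_graph h5)), fun h5 => k3_graph' (hK3.2 (k3_lan' h5))⟩,
    manyOne_of_gadget hirr hg⟩

theorem bp_graphs : BodirskyPinsker ↔ BodirskyPinskerGraphs := by
  constructor
  · intro h D E hE
    exact h _ _ _ hE.1
  · intro h σ D 𝔸 hA hK
    obtain ⟨G, E, h1, h2, h3⟩ := exists_graph hA
    exact mem_P_of_manyOne h3 (h G E h1 (fun h4 => hK (h2.1 h4)))

theorem bp_oriented (k : ℕ) : BodirskyPinsker ↔ BodirskyPinskerOriented k := by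
  constructor
  · intro h D E hE
    exact h _ _ _ hE.1
  · intro h σ D 𝔸 hA hK
    obtain ⟨G, E, h1, h2, h3⟩ := exists_oriented k hA
    exact mem_P_of_manyOne h3 (h G E h1 (fun h4 => hK (h2.1 h4)))

end Pool.Agent.H68.BP
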