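import Pool.Agent.H68.BG.KO
import Pool.Agent.H17.UG.Main

/-!
# The relations of the template are defined without equality
-/

namespace Pool.Agent.H68.BG

open FirstOrder FirstOrder.Language Pool.Agent.H74.Stub Function
open Pool.Agent.H17 Pool.Agent.H17.DG Pool.Agent.H17.UG

theorem pfd_rol {I G : Type} (E : G → G → Prop) (i : Fin 3) (a : I) :
    PFD E {x : I → G | Rol E i (x a)} := by
  classical
  let t : Fin 9 → I ⊕ Fin 9 := fun u => if u = rt i then Sum.inl a else Sum.inr u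
  have h1 := pfd_iInter (κ := {p : Fin 9 × Fin 9 // W p.1 p.2}) (F := E)
    (fun p => pfd_arc (t p.1.1) (t p.1.2))
  have h := pfd_exists h1
  convert h using 1
  ext x
  constructor
  · rintro ⟨h, h2, h3⟩
    refine ⟨h, fun p => ?_⟩
    have e : ∀ u, Sum.elim x h (t u) = h u := by
      intro u
      simp only [t]
      split_ifs with h4
      · rw [h4]; exact h3.symm
      · rfl
    simp only [Set.mem_ofPred_eq]
    rw [e, e]
    exact h2 _ _ p.2
  · rintro ⟨h, h2⟩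
    refine ⟨fun u => Sum.elim x h (t u), fun u v huv => h2 ⟨(u, v), huv⟩, ?_⟩
    simp [t]

theorem pfd_arcU {G : Type} (E : G → G → Prop) :
    PFD E {x : Fin 2 → G | ArcU E (x 0) (x 1)} := by
  have h1 : PFD E {x : Fin 2 ⊕ Fin 2 → G | Rol E 0 (x (Sum.inr 0))} := pfd_rol E 0 _
  have h2 : PFD E {x : Fin 2 ⊕ Fin 2 → G | Rol E 1 (x (Sum.inr 1))} := pfd_rol E 1 _
  have h3 : PFD E {x : Fin 2 ⊕ Fin 2 → G | Rol E 2 (x (Sum.inl 0))} := pfd_rol E 2 _
  have h4 : PFD E {x : Fin 2 ⊕ Fin 2 → G | Rol E 2 (x (Sum.inl 1))} := pfd_rol E 2 _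
  have h5 : PFD E {x : Fin 2 ⊕ Fin 2 → G | E (x (Sum.inr 0)) (x (Sum.inl 0))} := pfd_arc _ _
  have h6 : PFD E {x : Fin 2 ⊕ Fin 2 → G | E (x (Sum.inr 1)) (x (Sum.inl 1))} := pfd_arc _ _
  have h7 : PFD E {x : Fin 2 ⊕ Fin 2 → G | E (x (Sum.inr 0)) (x (Sum.inr 1))} := pfd_arc _ _
  have h8 := pfd_exists (pfd_and (pfd_and h1 (pfd_and h2 (pfd_and h3 h4)))
    (pfd_and h5 (pfd_and h6 h7)))
  convert h8 using 1
  ext x
  constructor
  · rintro ⟨u, v, h⟩
    exact ⟨![u, v], h⟩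
  · rintro ⟨y, h⟩
    exact ⟨y 0, y 1, h⟩

end Pool.Agent.H68.BG
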