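import Pool.Agent.H68.BG.Back

/-!
# Primitive positive constructions of the triangle
-/

namespace Pool.Agent.H68.BP

open FirstOrder FirstOrder.Language Function
open Pool.Agent.H17

/-- translation of atomic formulas over digraphs -/
def atomD {X Y : Type} (ρ : X → Y) : Atom Sig.digraph X → Pool.Agent.H74.Stub.Atom DG.Dig Y
  | .eq x y => .eq (ρ x) (ρ y)
  | .rel _ t => .rel DG.ArcRel.arc (fun i : Fin 2 => ρ (t i))

theorem atomD_holds {X Y G : Type} {E : G → G → Prop} (ρ : X → Y) (v : Y → G)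
    (a : Atom Sig.digraph X) :
    @Pool.Agent.H74.Stub.Atom.Holds DG.Dig Y G (DG.digStr E) v (atomD ρ a) ↔
      a.Holds (graph E) (fun x => v (ρ x)) := by
  cases a with
  | eq x y => exact Iff.rfl
  | rel l t => exact Iff.rfl

theorem k3_graph {G : Type} {E : G → G → Prop} (h : PPConstructsK3 (graph E)) :
    @Pool.Agent.H74.Stub.PPConstructs DG.Dig G (DG.digStr E) DG.Dig (Fin 3) DG.K3 := by
  obtain ⟨n, F, hn, ⟨q, φ, hφ⟩, ⟨t, ht⟩, c, hc⟩ := h
  let _ := DG.digStr E
  let _ := DG.K3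
  let P : DG.Dig.Structure (Fin n → G) := DG.digStr F
  refine ⟨n, P, hn, ?_, ⟨{ toFun := c, map_fun' := fun f => isEmptyElim f, map_rel' := ?_ }⟩,
    ⟨{ toFun := t, map_fun' := fun f => isEmptyElim f, map_rel' := ?_ }⟩⟩
  · intro k R
    cases R with
    | arc =>
      let ρ : (Fin n ⊕ Fin n) ⊕ Fin q → (Fin 2 × Fin n) ⊕ Fin q :=
        Sum.map (Sum.elim (fun j => (0, j)) (fun j => (1, j))) id
      refine ⟨q, φ.map (atomD ρ), fun w => ?_⟩
      have h1 := hφ (Sum.elim (fun j => w (0, j)) (fun j => w (1, j)))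
      have e : ∀ y : Fin q → G, (fun x => Sum.elim w y (ρ x)) =
          Sum.elim (Sum.elim (fun j => w (0, j)) (fun j => w (1, j))) y := by
        intro y
        funext x
        rcases x with (j | j) | j <;> rfl
      refine Iff.trans h1 (exists_congr fun y => ?_)
      constructor
      · intro h2 a ha
        obtain ⟨b, hb, rfl⟩ := List.mem_map.1 ha
        rw [atomD_holds, e]
        exact h2 b hb
      · intro h2 b hb
        have := h2 _ (List.mem_map.2 ⟨b, hb, rfl⟩)
        rw [atomD_holds, e] at this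
        exact this
  · intro k R x hx
    cases R with
    | arc => exact hc _ _ hx
  · intro k R x hx
    cases R with
    | arc => exact ht _ _ hx

/-- translation of atomic formulas -/
def atomL {σ : Sig} {X Y : Type} (ρ : X → Y) : Pool.Agent.H74.Stub.Atom (Lan σ) X →
    Option (Atom σ Y)
  | .bot => none
  | .eq x y => some (.eq (ρ x) (ρ y))
  | .rel R t => some (.rel R.1 (fun i => ρ (t (Fin.cast R.2 i))))

theorem k3_lan {σ : Sig} {A : Type} {𝔸 : Str σ A}
    (h : @Pool.Agent.H74.Stub.PPConstructs (Lan σ) A (lstr 𝔸) DG.Dig (Fin 3) DG.K3) :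
    PPConstructsK3 𝔸 := by
  let _ := lstr 𝔸
  let _ := DG.K3
  obtain ⟨n, P, hn, hP, ⟨c⟩, ⟨t⟩⟩ := h
  let F : (Fin n → A) → (Fin n → A) → Prop := fun u v => P.RelMap DG.ArcRel.arc ![u, v]
  have ht : ∀ a b : Fin 3, a ≠ b → F (t a) (t b) := by
    intro a b hab
    have h1 := t.map_rel' DG.ArcRel.arc ![a, b] hab
    have e : t.toFun ∘ ![a, b] = ![t a, t b] := by
      funext i
      fin_cases i <;> rfl
    rw [e] at h1
    exact h1
  have hc : ∀ u v, F u v → c u ≠ c v := by
    intro u v huv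
    exact c.map_rel' DG.ArcRel.arc ![u, v] huv
  obtain ⟨q, φ, hφ⟩ := hP 2 DG.ArcRel.arc
  have key : ∀ u v : Fin n → A, F u v ↔ ∃ y : Fin q → A, ∀ a ∈ φ,
      a.Holds (Sum.elim (fun p : Fin 2 × Fin n => (![u, v] : Fin 2 → Fin n → A) p.1 p.2) y) :=
    fun u v => hφ (fun p : Fin 2 × Fin n => (![u, v] : Fin 2 → Fin n → A) p.1 p.2)
  have hbot : ∀ a ∈ φ, a ≠ Pool.Agent.H74.Stub.Atom.bot := by
    obtain ⟨y, hy⟩ := (key _ _).1 (ht 0 1 (by decide))
    intro a ha h
    have := hy a ha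
    rw [h] at this
    exact this
  let ρ : (Fin 2 × Fin n) ⊕ Fin q → (Fin n ⊕ Fin n) ⊕ Fin q :=
    Sum.map (fun p => if p.1 = 0 then Sum.inl p.2 else Sum.inr p.2) id
  refine ⟨n, F, hn, ⟨q, φ.filterMap (atomL ρ), fun z => ?_⟩, ⟨fun a => t a, ht⟩, c, hc⟩
  have e : ∀ y : Fin q → A, (fun x => Sum.elim z y (ρ x)) =
      Sum.elim (fun p : Fin 2 × Fin n => (![fun j => z (Sum.inl j), fun j => z (Sum.inr j)] :
        Fin 2 → Fin n → A) p.1 p.2) y := by
    intro y
    funext x
    rcases x with ⟨i, j⟩ | j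
    · have hi : i = 0 ∨ i = 1 := by omega
      rcases hi with rfl | rfl
      · simp [ρ]
      · simp [ρ]
    · rfl
  have hold : ∀ (y : Fin q → A) (a : Pool.Agent.H74.Stub.Atom (Lan σ) ((Fin 2 × Fin n) ⊕ Fin q))
      (b : Atom σ ((Fin n ⊕ Fin n) ⊕ Fin q)), atomL ρ a = some b →
      (b.Holds 𝔸 (Sum.elim z y) ↔ a.Holds (fun x => Sum.elim z y (ρ x))) := by
    intro y a b hab
    cases a with
    | bot => simp [atomL] at hab
    | eq x x' =>
      simp only [atomL, Option.some.injEq] at hab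
      subst hab
      exact Iff.rfl
    | rel R t =>
      simp only [atomL, Option.some.injEq] at hab
      subst hab
      exact Iff.rfl
  refine Iff.trans (key _ _) (exists_congr fun y => ?_)
  constructor
  · intro h2 b hb
    obtain ⟨a, ha, hab⟩ := List.mem_filterMap.1 hb
    rw [hold y a b hab, e]
    exact h2 a ha
  · intro h2 a ha
    have h3 : ∃ b, atomL ρ a = some b := by
      cases a with
      | bot => exact absurd rfl (hbot _ ha)
      | eq x x' => exact ⟨_, rfl⟩
      | rel R t => exact ⟨_, rfl⟩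
    obtain ⟨b, hb⟩ := h3
    have := h2 b (List.mem_filterMap.2 ⟨a, ha, hb⟩)
    rw [hold y a b hb, e] at this
    exact this

/-- translation of atomic formulas -/
def atomL' {σ : Sig} {X Y : Type} (ρ : X → Y) : Atom σ X →
    Pool.Agent.H74.Stub.Atom (Lan σ) Y
  | .eq x y => .eq (ρ x) (ρ y)
  | .rel l t => .rel (L := Lan σ) (⟨l, rfl⟩ : {l' : Fin σ.m // σ.ar l' = σ.ar l}) (fun i => ρ (t i))

theorem atomL'_holds {σ : Sig} {X Y A : Type} {𝔸 : Str σ A} (ρ : X → Y) (v : Y → A)
    (a : Atom σ X) :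
    @Pool.Agent.H74.Stub.Atom.Holds (Lan σ) Y A (lstr 𝔸) v (atomL' ρ a) ↔
      a.Holds 𝔸 (fun x => v (ρ x)) := by
  cases a with
  | eq x y => exact Iff.rfl
  | rel l t => exact Iff.rfl

theorem k3_lan' {σ : Sig} {A : Type} {𝔸 : Str σ A} (h : PPConstructsK3 𝔸) :
    @Pool.Agent.H74.Stub.PPConstructs (Lan σ) A (lstr 𝔸) DG.Dig (Fin 3) DG.K3 := by
  obtain ⟨n, F, hn, ⟨q, φ, hφ⟩, ⟨t, ht⟩, c, hc⟩ := h
  let _ := lstr 𝔸
  let _ := DG.K3
  let P : DG.Dig.Structure (Fin n → A) := DG.digStr F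
  refine ⟨n, P, hn, ?_, ⟨{ toFun := c, map_fun' := fun f => isEmptyElim f, map_rel' := ?_ }⟩,
    ⟨{ toFun := t, map_fun' := fun f => isEmptyElim f, map_rel' := ?_ }⟩⟩
  · intro k R
    cases R with
    | arc =>
      let ρ : (Fin n ⊕ Fin n) ⊕ Fin q → (Fin 2 × Fin n) ⊕ Fin q :=
        Sum.map (Sum.elim (fun j => (0, j)) (fun j => (1, j))) id
      refine ⟨q, φ.map (atomL' ρ), fun w => ?_⟩
      have h1 := hφ (Sum.elim (fun j => w (0, j)) (fun j => w (1, j)))
      have e : ∀ y : Fin q → A, (fun x => Sum.elim w y (ρ x)) =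
          Sum.elim (Sum.elim (fun j => w (0, j)) (fun j => w (1, j))) y := by
        intro y
        funext x
        rcases x with (j | j) | j <;> rfl
      refine Iff.trans h1 (exists_congr fun y => ?_)
      constructor
      · intro h2 a ha
        obtain ⟨b, hb, rfl⟩ := List.mem_map.1 ha
        rw [atomL'_holds, e]
        exact h2 b hb
      · intro h2 b hb
        have := h2 _ (List.mem_map.2 ⟨b, hb, rfl⟩)
        rw [atomL'_holds, e] at this
        exact this
  · intro k R x hx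
    cases R with
    | arc => exact hc _ _ hx
  · intro k R x hx
    cases R with
    | arc => exact ht _ _ hx

/-- translation of atomic formulas over digraphs -/
def atomD' {X Y : Type} (ρ : X → Y) : Pool.Agent.H74.Stub.Atom DG.Dig X →
    Option (Atom Sig.digraph Y)
  | .bot => none
  | .eq x y => some (.eq (ρ x) (ρ y))
  | .rel (n := n) R t => some (.rel (0 : Fin 1)
      (fun i : Fin 2 => ρ (t (Fin.cast (by cases R; rfl) i))))

theorem k3_graph' {G : Type} {E : G → G → Prop}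
    (h : @Pool.Agent.H74.Stub.PPConstructs DG.Dig G (DG.digStr E) DG.Dig (Fin 3) DG.K3) :
    PPConstructsK3 (graph E) := by
  let _ := DG.digStr E
  let _ := DG.K3
  obtain ⟨n, P, hn, hP, ⟨c⟩, ⟨t⟩⟩ := h
  let F : (Fin n → G) → (Fin n → G) → Prop := fun u v => P.RelMap DG.ArcRel.arc ![u, v]
  have ht : ∀ a b : Fin 3, a ≠ b → F (t a) (t b) := by
    intro a b hab
    have h1 := t.map_rel' DG.ArcRel.arc ![a, b] hab
    have e : t.toFun ∘ ![a, b] = ![t a, t b] := by
      funext i
      fin_cases i <;> rfl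
    rw [e] at h1
    exact h1
  have hc : ∀ u v, F u v → c u ≠ c v := by
    intro u v huv
    exact c.map_rel' DG.ArcRel.arc ![u, v] huv
  obtain ⟨q, φ, hφ⟩ := hP 2 DG.ArcRel.arc
  have key : ∀ u v : Fin n → G, F u v ↔ ∃ y : Fin q → G, ∀ a ∈ φ,
      a.Holds (Sum.elim (fun p : Fin 2 × Fin n => (![u, v] : Fin 2 → Fin n → G) p.1 p.2) y) :=
    fun u v => hφ (fun p : Fin 2 × Fin n => (![u, v] : Fin 2 → Fin n → G) p.1 p.2)
  have hbot : ∀ a ∈ φ, a ≠ Pool.Agent.H74.Stub.Atom.bot := by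
    obtain ⟨y, hy⟩ := (key _ _).1 (ht 0 1 (by decide))
    intro a ha h
    have := hy a ha
    rw [h] at this
    exact this
  let ρ : (Fin 2 × Fin n) ⊕ Fin q → (Fin n ⊕ Fin n) ⊕ Fin q :=
    Sum.map (fun p => if p.1 = 0 then Sum.inl p.2 else Sum.inr p.2) id
  refine ⟨n, F, hn, ⟨q, φ.filterMap (atomD' ρ), fun z => ?_⟩, ⟨fun a => t a, ht⟩, c, hc⟩
  have e : ∀ y : Fin q → G, (fun x => Sum.elim z y (ρ x)) =
      Sum.elim (fun p : Fin 2 × Fin n => (![fun j => z (Sum.inl j), fun j => z (Sum.inr j)] :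
        Fin 2 → Fin n → G) p.1 p.2) y := by
    intro y
    funext x
    rcases x with ⟨i, j⟩ | j
    · have hi : i = 0 ∨ i = 1 := by omega
      rcases hi with rfl | rfl
      · simp [ρ]
      · simp [ρ]
    · rfl
  have hold : ∀ (y : Fin q → G) (a : Pool.Agent.H74.Stub.Atom DG.Dig ((Fin 2 × Fin n) ⊕ Fin q))
      (b : Atom Sig.digraph ((Fin n ⊕ Fin n) ⊕ Fin q)), atomD' ρ a = some b →
      (b.Holds (graph E) (Sum.elim z y) ↔ a.Holds (fun x => Sum.elim z y (ρ x))) := by
    intro y a b hab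
    cases a with
    | bot => simp [atomD'] at hab
    | eq x x' =>
      simp only [atomD', Option.some.injEq] at hab
      subst hab
      exact Iff.rfl
    | rel R t =>
      simp only [atomD', Option.some.injEq] at hab
      subst hab
      cases R with
      | arc => exact Iff.rfl
  refine Iff.trans (key _ _) (exists_congr fun y => ?_)
  constructor
  · intro h2 b hb
    obtain ⟨a, ha, hab⟩ := List.mem_filterMap.1 hb
    rw [hold y a b hab, e]
    exact h2 a ha
  · intro h2 a ha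
    have h3 : ∃ b, atomD' ρ a = some b := by
      cases a with
      | bot => exact absurd rfl (hbot _ ha)
      | eq x x' => exact ⟨_, rfl⟩
      | rel R t => exact ⟨_, rfl⟩
    obtain ⟨b, hb⟩ := h3
    have := h2 b (List.mem_filterMap.2 ⟨a, ha, hb⟩)
    rw [hold y a b hb, e] at this
    exact this

end Pool.Agent.H68.BP
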