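import Pool.Agent.H68.BG.PF
import Pool.Agent.H17.DG.Main

/-!
# Oriented graphs: the relations of the template are defined without equality
-/

namespace Pool.Agent.H68.BG

open FirstOrder FirstOrder.Language Pool.Agent.H74.Stub Function
open Pool.Agent.H17 Pool.Agent.H17.DG

theorem pfd_tr {I M : Type} {F : M → M → Prop} {n : ℕ} (t : Fin n → I) :
    PFD F {x : I → M | Tr F (fun i => x (t i))} := by
  have h := pfd_iInter (κ := {p : Fin n × Fin n // p.1 < p.2}) (F := F)
    (S := fun p => {x : I → M | F (x (t p.1.1)) (x (t p.1.2))}) (fun p => pfd_arc _ _)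
  convert h using 1
  ext x
  exact ⟨fun h p => h _ _ p.2, fun h i j hij => h ⟨(i, j), hij⟩⟩

section

variable {L : FirstOrder.Language.{0, 0}} {A : Type} [L.Structure A]
  [Finite (Σ n, L.Relations n)] {k : ℕ} {G : Type} {C : CG k A G}

theorem pfd_eqA : PFD C.arc {x : Fin 2 × Fin (k + 1) → G |
    EqA L C (fun j => x (0, j)) (fun j => x (1, j))} := by
  classical
  let pr : Fin (sm L A k) → Fin (MB L A) × Fin (k + 1) := fun j => finProdFinEquiv.symm j
  have hpr : ∀ b j, pr (blk b j) = (b, j) := fun b j => finProdFinEquiv.symm_apply_apply _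
  have hpr2 : ∀ j, blk (pr j).1 (pr j).2 = j := fun j => finProdFinEquiv.apply_symm_apply j
  have hβ : b3 L A ≠ b2 L A := (b2_lt_b3 L A).ne'
  let t : Fin (sm L A k) → (Fin 2 × Fin (k + 1)) ⊕ Fin (sm L A k) := fun j =>
    if (pr j).1 = b2 L A then Sum.inl (0, (pr j).2)
    else if (pr j).1 = b3 L A then Sum.inl (1, (pr j).2) else Sum.inr j
  have h := pfd_exists (pfd_tr (F := C.arc) t)
  convert h using 1
  ext x
  constructor
  · rintro ⟨w, hw, h2, h3⟩
    refine ⟨w, ?_⟩
    have e : (fun j => Sum.elim x w (t j)) = w := by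
      funext j
      simp only [t]
      split_ifs with h4 h5
      · have := h2 (pr j).2
        rw [← h4, hpr2] at this
        exact this.symm
      · have := h3 (pr j).2
        rw [← h5, hpr2] at this
        exact this.symm
      · rfl
    simp only [Set.mem_ofPred_eq]
    rw [e]
    exact hw
  · rintro ⟨w, hw⟩
    refine ⟨fun j => Sum.elim x w (t j), hw, ?_, ?_⟩
    · intro j
      simp [t, hpr]
    · intro j
      simp [t, hpr, hβ]

theorem pfd_eq2 : PFD C.arc {x : Fin 2 × Fin (k + 1) → G |
    Eq2 L C (fun j => x (0, j)) (fun j => x (1, j))} := by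
  let J : Type := (Fin 2 × Fin (k + 1)) ⊕ Fin (k + 1)
  have h1 := pfd_comap (J := J) (pfd_eqA (L := L) (C := C))
    (fun p => if p.1 = 0 then Sum.inl (0, p.2) else Sum.inr p.2)
  have h2 := pfd_comap (J := J) (pfd_eqA (L := L) (C := C))
    (fun p => if p.1 = 0 then Sum.inl (1, p.2) else Sum.inr p.2)
  have h := pfd_exists (pfd_and h1 h2)
  convert h using 1
  ext x
  exact Iff.rfl

theorem pfd_rt (r : NR L A) :
    PFD C.arc {x : Fin r.1.1 × Fin (k + 1) → G | RT L C r (fun i j => x (i, j))} := by
  let J : Type := (Fin r.1.1 × Fin (k + 1)) ⊕ Fin (sm L A k)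
  have h1 : PFD C.arc {x : J → G | Tr C.arc (fun i => x (Sum.inr i))} := pfd_tr _
  have h2 := pfd_iInter (κ := Fin r.1.1) (fun i => pfd_comap (J := J)
    (pfd_eq2 (L := L) (C := C)) (fun p => if p.1 = 0 then Sum.inl (i, p.2) else
      Sum.inr (blk (pl L A ⟨r, i⟩) p.2)))
  have h := pfd_exists (pfd_and h1 h2)
  convert h using 1
  ext x
  exact Iff.rfl

end

theorem constructionO (k : ℕ) (L : FirstOrder.Language.{0, 0}) (A : Type) [L.Structure A]
    (hA : DG.InScope L A) :
    ∃ (G : Type) (E : G → G → Prop), DG.OrientedTemplate k G E ∧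
      (@PPConstructs Dig G (digStr E) Dig (Fin 3) K3 ↔ @PPConstructs L A _ Dig (Fin 3) K3) ∧
      ∃ S : ∀ n, L.Relations n → Set (Fin n × Fin (k + 1) → G), (∀ n R, PFD E (S n R)) ∧
        ∀ (X : Type) [L.Structure X], Nonempty (L.Hom X A) ↔
          ∃ f : X → Fin (k + 1) → G, ∀ (n : ℕ) (R : L.Relations n) (t : Fin n → X),
            Structure.RelMap R t → (fun p : Fin n × Fin (k + 1) => f (t p.1) p.2) ∈ S n R := by
  classical
  obtain ⟨⟨hrel, hfin⟩, hcount, hne, LB, sB, hLB, hB, hFB, hR⟩ := hA
  have hrelB := hLB.1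
  obtain ⟨G, hG, C, hC⟩ := exists_isGen k A (sm_pos L A k) (QQ L A k) (QQ_loc L A k)
  have hsm := sm_large L A k
  have hcommon : ∀ a : A, ∃ z : Fin (k + 1) → G, Tr C.arc z ∧ C.col z = a := by
    intro a
    obtain ⟨z, h1, h2, -⟩ := hC.common (QQ_loc L A k) (n := 0) (by omega) (fun i => i.elim0) a
    exact ⟨z, h1, h2⟩
  have hGne : Nonempty G := by
    obtain ⟨z, -⟩ := hcommon (Classical.arbitrary A)
    exact ⟨z 0⟩
  have hno := noAlg hC
  have hinf : Infinite G := by
    obtain ⟨x⟩ := hGne
    have h1 := hno ∅ x (by simp)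
    exact Set.infinite_univ_iff.1 (h1.mono (Set.subset_univ _))
  have hpp : @PPConstructs Dig G (digStr C.arc) L A _ := ppConstructs_template hC
  have hirr : ∀ x, ¬ C.arc x x := fun x h => C.asymm x x h h
  refine ⟨G, C.arc, ⟨?_, hinf, C.asymm, kHomog hC, hno⟩, ?_, ?_⟩
  · let _ := digStr C.arc
    exact ⟨finRel_dig, hG, hGne, LBp LB k, strB LB C, finRel_LBp hLB k, homogB hB hC hR,
      finitelyBounded hLB hB hFB hC hR, reductB⟩
  · constructor
    · intro h
      exact k3_of_generic (lQ L A k) hC (by omega) h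
    · intro h
      let _ := digStr C.arc
      let _ := K3
      exact ppConstructs_trans hpp h
  · let S : ∀ n, L.Relations n → Set (Fin n × Fin (k + 1) → G) := fun n R =>
      if h : ∃ x : Fin n → A, Structure.RelMap R x then
        {x | RT L C ⟨⟨n, R⟩, h⟩ (fun i j => x (i, j))} else ∅
    have hS1 : ∀ n (R : L.Relations n) (h : ∃ x : Fin n → A, Structure.RelMap R x),
        S n R = {x | RT L C ⟨⟨n, R⟩, h⟩ (fun i j => x (i, j))} := fun n R h => dif_pos h
    have hS2 : ∀ n (R : L.Relations n) (h : ¬ ∃ x : Fin n → A, Structure.RelMap R x),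
        S n R = ∅ := fun n R h => dif_neg h
    refine ⟨S, fun n R => ?_, fun X _ => ?_⟩
    · by_cases h : ∃ x : Fin n → A, Structure.RelMap R x
      · rw [hS1 n R h]
        exact pfd_rt ⟨⟨n, R⟩, h⟩
      · rw [hS2 n R h]
        exact pfd_empty hirr
    · constructor
      · rintro ⟨φ⟩
        choose κ hκ1 hκ2 using hcommon
        refine ⟨fun x => κ (φ x), fun n R t ht => ?_⟩
        have h1 : Structure.RelMap R (fun i => φ (t i)) := φ.map_rel' R t ht
        have h : ∃ x : Fin n → A, Structure.RelMap R x := ⟨_, h1⟩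
        rw [hS1 n R h]
        have h2 : RT L C ⟨⟨n, R⟩, h⟩ (fun i => κ (φ (t i))) := by
          rw [rt_iff hC]
          refine ⟨fun i => hκ1 _, ?_⟩
          have e : (fun i => C.col (κ (φ (t i)))) = fun i => φ (t i) := funext fun i => hκ2 _
          change Structure.RelMap R (fun i => C.col (κ (φ (t i))))
          rw [e]
          exact h1
        exact h2
      · rintro ⟨f, hf⟩
        refine ⟨{ toFun := fun x => C.col (f x)
                  map_fun' := fun F => isEmptyElim F
                  map_rel' := ?_ }⟩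
        intro n R t ht
        have h1 := hf n R t ht
        by_cases h : ∃ x : Fin n → A, Structure.RelMap R x
        · rw [hS1 n R h] at h1
          exact ((rt_iff hC _ _).1 h1).2
        · rw [hS2 n R h] at h1
          exact absurd h1 (Set.notMem_empty _)

end Pool.Agent.H68.BG
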