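import Mathlib

/-!
# Primitive positive formulas without equality over a digraph
-/

namespace Pool.Agent.H68.BG

open Function

/-- The formula with the private variables `Q` and the arcs `A`. -/
def PF {I Q M : Type} (A : (I ⊕ Q) → (I ⊕ Q) → Prop) (F : M → M → Prop) (x : I → M) : Prop :=
  ∃ h : Q → M, ∀ u v, A u v → F (Sum.elim x h u) (Sum.elim x h v)

theorem PF.map {I Q M N : Type} {A : (I ⊕ Q) → (I ⊕ Q) → Prop} {F : M → M → Prop}
    {F' : N → N → Prop} {φ : M → N} (hφ : ∀ a b, F a b → F' (φ a) (φ b)) {x : I → M}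
    (h : PF A F x) : PF A F' (fun i => φ (x i)) := by
  obtain ⟨h, hh⟩ := h
  refine ⟨fun q => φ (h q), fun u v huv => ?_⟩
  have e : ∀ u : I ⊕ Q, Sum.elim (fun i => φ (x i)) (fun q => φ (h q)) u = φ (Sum.elim x h u) := by
    rintro (i | q) <;> rfl
  rw [e, e]
  exact hφ _ _ (hh u v huv)

/-- Definability by such a formula. -/
def PFD {I M : Type} (F : M → M → Prop) (S : Set (I → M)) : Prop :=
  ∃ (Q : Type) (_ : Finite Q) (A : (I ⊕ Q) → (I ⊕ Q) → Prop), ∀ x, x ∈ S ↔ PF A F x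

section

variable {I J M : Type} {F : M → M → Prop}

theorem pfd_arc (i j : I) : PFD F {x : I → M | F (x i) (x j)} := by
  refine ⟨Empty, inferInstance, fun u v => u = Sum.inl i ∧ v = Sum.inl j, fun x => ?_⟩
  constructor
  · intro h
    refine ⟨fun q => q.elim, ?_⟩
    rintro u v ⟨rfl, rfl⟩
    exact h
  · rintro ⟨h, hh⟩
    exact hh _ _ ⟨rfl, rfl⟩

theorem pfd_iInter {κ : Type} [Finite κ] {S : κ → Set (I → M)} (h : ∀ k, PFD F (S k)) :
    PFD F {x | ∀ k, x ∈ S k} := by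
  choose Q hQ A hA using h
  refine ⟨Σ k, Q k, inferInstance, fun u v => ∃ k u' v', A k u' v' ∧
    u = Sum.map id (Sigma.mk k) u' ∧ v = Sum.map id (Sigma.mk k) v', fun x => ?_⟩
  have key : ∀ (h : (Σ k, Q k) → M) (k : κ) (u : I ⊕ Q k),
      Sum.elim x h (Sum.map id (Sigma.mk k) u) = Sum.elim x (fun q => h ⟨k, q⟩) u := by
    rintro h k (i | q) <;> rfl
  constructor
  · intro hx
    have := fun k => (hA k x).1 (hx k)
    choose h hh using this
    refine ⟨fun q => h q.1 q.2, ?_⟩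
    rintro u v ⟨k, u', v', h1, rfl, rfl⟩
    rw [key, key]
    exact hh k _ _ h1
  · rintro ⟨h, hh⟩ k
    rw [hA]
    refine ⟨fun q => h ⟨k, q⟩, fun u v huv => ?_⟩
    rw [← key, ← key]
    exact hh _ _ ⟨k, u, v, huv, rfl, rfl⟩

theorem pfd_and {S T : Set (I → M)} (hS : PFD F S) (hT : PFD F T) :
    PFD F {x | x ∈ S ∧ x ∈ T} := by
  have h := pfd_iInter (κ := Bool) (S := fun b => if b then S else T) (F := F) (by
    intro b
    cases b
    · simpa using hT
    · simpa using hS)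
  convert h using 1
  ext x
  constructor
  · rintro ⟨h1, h2⟩ b
    cases b
    · simpa using h2
    · simpa using h1
  · intro h
    exact ⟨by simpa using h true, by simpa using h false⟩

theorem pfd_exists [Finite J] {S : Set (I ⊕ J → M)} (h : PFD F S) :
    PFD F {x : I → M | ∃ y : J → M, Sum.elim x y ∈ S} := by
  obtain ⟨Q, hQ, A, hA⟩ := h
  let e : (I ⊕ J) ⊕ Q → I ⊕ (J ⊕ Q) := Equiv.sumAssoc I J Q
  refine ⟨J ⊕ Q, inferInstance, fun u v => ∃ u' v', A u' v' ∧ u = e u' ∧ v = e v', fun x => ?_⟩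
  have key : ∀ (y : J → M) (h : Q → M) (u : (I ⊕ J) ⊕ Q),
      Sum.elim x (Sum.elim y h) (e u) = Sum.elim (Sum.elim x y) h u := by
    rintro y h ((i | j) | q) <;> rfl
  constructor
  · rintro ⟨y, hy⟩
    obtain ⟨h, hh⟩ := (hA _).1 hy
    refine ⟨Sum.elim y h, ?_⟩
    rintro u v ⟨u', v', h1, rfl, rfl⟩
    rw [key, key]
    exact hh _ _ h1
  · rintro ⟨h, hh⟩
    refine ⟨fun j => h (Sum.inl j), ?_⟩
    rw [hA]
    refine ⟨fun q => h (Sum.inr q), fun u v huv => ?_⟩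
    rw [← key, ← key]
    have : Sum.elim (fun j => h (Sum.inl j)) (fun q => h (Sum.inr q)) = h := by
      funext z
      rcases z with j | q <;> rfl
    rw [this]
    exact hh _ _ ⟨u, v, huv, rfl, rfl⟩

theorem pfd_comap {S : Set (I → M)} (h : PFD F S) (t : I → J) :
    PFD F {x : J → M | (fun i => x (t i)) ∈ S} := by
  obtain ⟨Q, hQ, A, hA⟩ := h
  refine ⟨Q, hQ, fun u v => ∃ u' v', A u' v' ∧ u = Sum.map t id u' ∧ v = Sum.map t id v',
    fun x => ?_⟩
  have key : ∀ (h : Q → M) (u : I ⊕ Q),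
      Sum.elim x h (Sum.map t id u) = Sum.elim (fun i => x (t i)) h u := by
    rintro h (i | q) <;> rfl
  rw [Set.mem_ofPred_eq, hA]
  constructor
  · rintro ⟨h, hh⟩
    refine ⟨h, ?_⟩
    rintro u v ⟨u', v', h1, rfl, rfl⟩
    rw [key, key]
    exact hh _ _ h1
  · rintro ⟨h, hh⟩
    refine ⟨h, fun u v huv => ?_⟩
    rw [← key, ← key]
    exact hh _ _ ⟨u, v, huv, rfl, rfl⟩

/-- The empty set, for digraphs without loops. -/
theorem pfd_empty (hF : ∀ a, ¬ F a a) : PFD F (∅ : Set (I → M)) := by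
  refine ⟨Unit, inferInstance, fun u v => u = Sum.inr () ∧ v = Sum.inr (), fun x => ?_⟩
  constructor
  · intro h
    exact absurd h (Set.notMem_empty x)
  · rintro ⟨h, hh⟩
    exact absurd (hh _ _ ⟨rfl, rfl⟩) (hF _)

/-- Composition of definitions. -/
theorem pfd_comp {E : M → M → Prop} (hF : PFD E {x : Fin 2 → M | F (x 0) (x 1)})
    [Finite I] {S : Set (I → M)} (h : PFD F S) : PFD E S := by
  obtain ⟨Q, hQ, A, hA⟩ := h
  have h1 : PFD E {x : I ⊕ Q → M | ∀ p : {p : (I ⊕ Q) × (I ⊕ Q) // A p.1 p.2},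
      x ∈ {x : I ⊕ Q → M | (fun i : Fin 2 => x (![p.1.1, p.1.2] i)) ∈
        {x : Fin 2 → M | F (x 0) (x 1)}}} :=
    pfd_iInter fun p => pfd_comap hF _
  have h2 := pfd_exists h1
  convert h2 using 1
  ext x
  rw [hA]
  constructor
  · rintro ⟨h, hh⟩
    exact ⟨h, fun p => hh _ _ p.2⟩
  · rintro ⟨h, hh⟩
    exact ⟨h, fun u v huv => hh ⟨(u, v), huv⟩⟩

end

end Pool.Agent.H68.BG
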