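import Pool.Agent.H68.BG.Str

/-!
# The gadget reduction
-/

namespace Pool.Agent.H68.BP

open Pool.Agent.H1.NP Pool.Agent.H1.PNP Pool.Agent.H68.OQP
open Pool.Agent.H68.NPH hiding prs
open Function

variable {σ : Sig} (g : Gadget σ)

/-- the entry `i` of the constraint with the number given by the innermost index -/
def eE (σ : Sig) (i : ℕ) : Ex :=
  .inp (.add (.add (.con 3) (.mul (.con (σ.width + 1)) (.var 0))) (.con i))

/-- the number of variables -/
def eN : Ex := .inp (.con 2)

/-- the number of entries -/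
def eZ : Ex := .inp (.con 1)

/-- the index of a local vertex -/
def eV (l : Fin σ.m) : LV σ l g.a g.b → Ex
  | .inl p => .add (.mul (eE σ (p.1 + 1)) (.con g.a)) (.con p.2)
  | .inr q => .add (.add (.mul eN (.con g.a)) (.mul (.var 0) (.con g.b))) (.con q)

/-- the number of a local vertex -/
def lvN (l : Fin σ.m) (T : Fin (σ.ar l) → ℕ) (n j : ℕ) : LV σ l g.a g.b → ℕ
  | .inl p => T p.1 * g.a + p.2
  | .inr q => n * g.a + j * g.b + q

/-- the constraint is valid, with the symbol `l` -/
def cC (σ : Sig) (l : Fin σ.m) : Cd :=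
  ((Cd.le (.add (.con 1) (.mul (.con (σ.width + 1)) (.add (.var 0) (.con 1)))) eZ).and
    (Cd.eq (eE σ 0) (.con l))).and
      (Cd.all (List.finRange (σ.ar l)) (fun p => Cd.lt (eE σ (p + 1)) eN))

/-- the input is a code -/
def cV : Cd := (Cd.le (.inp (.con 0)) (.con 0)).and
  (Cd.eq (.inp (.add (.con 2) (.inp (.con 1)))) (.con 1))

/-- the arcs of the graph of an instance -/
def gA : Rg :=
  .seq (.loop eN (Rg.many g.E0 (fun e => .pair (.add (.mul (.var 0) (.con g.a)) (.con e.1))
      (.add (.mul (.var 0) (.con g.a)) (.con e.2)))))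
    (.loop eZ (Rg.many (List.finRange σ.m) (fun l => .cond (cC σ l)
      (Rg.many (g.E1 l) (fun e => .pair (eV g l e.1) (eV g l e.2))))))

/-- the arcs -/
def gT : Rg := .seq (.cond cV (gA g)) (.cond (.not cV) (.pair (.con 0) (.con 0)))

/-- the number of vertices -/
def eT : Ex := .add (.add (.mul eN (.con g.a)) (.mul eZ (.con g.b))) (.con 1)

/-- the graph -/
noncomputable def red (x : List Bool) : ℕ × List (ℕ × ℕ) :=
  ((eT g).val (ph (σ.width + 1) x) [], (gT g).out (ph (σ.width + 1) x) [])

theorem polyOn_red' : PolyOn (fun w : List Bool => w) encD (red g) :=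
  ((polyOn_numsR.comp (polyOn_lg (lgF (σ.width + 1)))).comp
    (polyOn_lg (.seq (.el (eT g)) (toLg3 (gT g))))).congr (fun q => q) (fun _ => rfl) (fun q => by
      rw [encD_eq]
      simp only [Lg.out, toLg3_out, red, List.singleton_append]
      rfl)

theorem red_bad {G : Type} {E : G → G → Prop} (hE : ∀ x, ¬ E x x) {x : List Bool}
    (h : ¬ cV.tv (ph (σ.width + 1) x) []) : ¬ QD E (red g x) := by
  rintro ⟨f, hf⟩
  have hm : ((0, 0) : ℕ × ℕ) ∈ (red g x).2 := by
    unfold red gT
    rw [Rg.mem_seq, Rg.mem_cond, Rg.mem_cond]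
    refine Or.inr ⟨h, ?_⟩
    rw [Rg.mem_pair]
    rfl
  have h0 : 0 < (red g x).1 := by
    unfold red eT
    simp only [Ex.val]
    omega
  exact hE _ (hf _ hm h0 h0)

section

variable {n : ℕ} {L : List (List ℕ)} (hL : ∀ c ∈ L, c.length = σ.width + 1)

include hL

theorem ph_vals : ∃ M, ph (σ.width + 1) (code n L) = M ∧ M.getD 0 0 = 0 ∧
    M.getD 1 0 = 1 + L.length * (σ.width + 1) ∧ M.getD 2 0 = n ∧
    M.getD (2 + M.getD 1 0) 0 = 1 ∧
    ∀ (j : ℕ) (hj : j < L.length) (i : ℕ), i < σ.width + 1 →
      M.getD (3 + (σ.width + 1) * j + i) 0 = (L[j]).getD i 0 := by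
  obtain ⟨r, hr⟩ := ph_code (n := n) (L := L) hL (by omega)
  refine ⟨_, rfl, ?_, ?_, ?_, ?_, ?_⟩
  · rw [hr]; rfl
  · rw [hr]; rfl
  · rw [hr]; rfl
  · rw [hr]
    simp only [List.getD_cons_succ, List.getD_cons_zero]
    rw [show 2 + (1 + L.length * (σ.width + 1)) = (1 + L.length * (σ.width + 1)) + 1 + 1 by omega,
      List.getD_cons_succ, List.getD_cons_succ,
      List.getD_append_right _ _ _ _ (by rw [List.length_cons, flatten_length L hL]; omega)]
    rw [List.length_cons, flatten_length L hL]
    simp [Nat.add_comm]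
  · intro j hj i hi
    have h1 : (n :: L.flatten).length = 1 + L.length * (σ.width + 1) := by
      rw [List.length_cons, flatten_length L hL, Nat.add_comm]
    have h2 : j * (σ.width + 1) + i < L.length * (σ.width + 1) := by
      have : (j + 1) * (σ.width + 1) ≤ L.length * (σ.width + 1) :=
        Nat.mul_le_mul_right _ hj
      rw [Nat.succ_mul] at this
      omega
    rw [hr, show 3 + (σ.width + 1) * j + i = ((j * (σ.width + 1) + i) + 1) + 1 + 1 by
      rw [Nat.mul_comm]; omega, List.getD_cons_succ, List.getD_cons_succ,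
      List.getD_append _ _ _ _ (by omega), List.getD_cons_succ]
    exact flatten_getD L hL j hj i hi

theorem red_code {G : Type} [Nonempty G] {E : G → G → Prop} :
    QD E (red g (code n L)) ↔ g.Sat E (strOf σ n L) := by
  obtain ⟨M, hM, h0, h1, h2, h3, h4⟩ := ph_vals (n := n) hL
  have hN : (red g (code n L)).1 = n * g.a + (1 + L.length * (σ.width + 1)) * g.b + 1 := by
    unfold red eT eN eZ
    rw [hM]
    simp only [Ex.val, h1, h2]
  have hw : ∀ (l : Fin σ.m) (p : Fin (σ.ar l)), (p : ℕ) + 1 < σ.width + 1 := by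
    intro l p
    have : σ.ar l ≤ σ.width := Finset.le_sup (f := σ.ar) (Finset.mem_univ l)
    have := p.2
    omega
  -- the arcs
  have hA : ∀ e : ℕ × ℕ, e ∈ (red g (code n L)).2 ↔
      (∃ x < n, ∃ d ∈ g.E0, e = (x * g.a + d.1, x * g.a + d.2)) ∨
      (∃ (j : ℕ) (hj : j < L.length) (l : Fin σ.m) (t : Fin (σ.ar l) → Fin n),
        (L[j]).getD 0 0 = l ∧ (∀ i : Fin (σ.ar l), (L[j]).getD (i + 1) 0 = t i) ∧
        ∃ d ∈ g.E1 l, e = (lvN g l (fun i => t i) n j d.1, lvN g l (fun i => t i) n j d.2)) := by
    intro e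
    have hV : cV.tv M [] := by
      simp only [cV, tv_and, tv_le, tv_eq, Ex.val, h0, h3]
      exact ⟨le_rfl, trivial⟩
    unfold red gT
    rw [hM, Rg.mem_seq, Rg.mem_cond, Rg.mem_cond]
    simp only [tv_not, hV, not_true_eq_false, false_and, or_false, true_and]
    unfold gA
    rw [Rg.mem_seq, Rg.mem_loop, Rg.mem_loop]
    refine or_congr ?_ ?_
    · simp only [eN, Ex.val, h2]
      refine exists_congr fun x => and_congr_right fun _ => ?_
      rw [Rg.mem_many]
      refine exists_congr fun d => and_congr_right fun _ => ?_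
      rw [Rg.mem_pair]
      simp only [Ex.val, List.getD_cons_zero]
    · constructor
      · rintro ⟨j, hj, hm⟩
        rw [Rg.mem_many] at hm
        obtain ⟨l, -, hm⟩ := hm
        rw [Rg.mem_cond, Rg.mem_many] at hm
        obtain ⟨hc, d, hd, he⟩ := hm
        rw [Rg.mem_pair] at he
        simp only [cC, tv_and, tv_le, tv_eq, tv_all, tv_lt, eE, eZ, eN, Ex.val,
          List.getD_cons_zero, h1, h2] at hc
        obtain ⟨⟨c1, c2⟩, c3⟩ := hc
        have hj' : j < L.length := by
          have : (j + 1) * (σ.width + 1) ≤ L.length * (σ.width + 1) := by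
            rw [Nat.mul_comm (j + 1)]
            omega
          exact Nat.lt_of_succ_le (Nat.le_of_mul_le_mul_right this (by omega))
        rw [h4 j hj' 0 (by omega)] at c2
        have c4 : ∀ p : Fin (σ.ar l), (L[j]).getD (p + 1) 0 < n := by
          intro p
          have := c3 p (List.mem_finRange p)
          rwa [h4 j hj' _ (hw l p)] at this
        refine ⟨j, hj', l, fun p => ⟨_, c4 p⟩, c2, fun i => rfl, d, hd, ?_⟩
        rw [he]
        have key : ∀ u : LV σ l g.a g.b, (eV g l u).val M [j] =
            lvN g l (fun i => (L[j]).getD (i + 1) 0) n j u := by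
          intro u
          rcases u with ⟨p, i⟩ | q
          · simp only [eV, eE, Ex.val, List.getD_cons_zero, lvN]
            rw [h4 j hj' _ (hw l p)]
          · simp only [eV, eN, Ex.val, List.getD_cons_zero, lvN, h2]
        rw [key, key]
      · rintro ⟨j, hj, l, t, c1, c2, d, hd, he⟩
        refine ⟨j, ?_, ?_⟩
        · simp only [eZ, Ex.val, h1]
          have : L.length ≤ L.length * (σ.width + 1) := Nat.le_mul_of_pos_right _ (by omega)
          omega
        · rw [Rg.mem_many]
          refine ⟨l, List.mem_finRange l, ?_⟩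
          rw [Rg.mem_cond, Rg.mem_many]
          constructor
          · simp only [cC, tv_and, tv_le, tv_eq, tv_all, tv_lt, eE, eZ, eN, Ex.val,
              List.getD_cons_zero, h1, h2]
            refine ⟨⟨?_, ?_⟩, ?_⟩
            · have : (j + 1) * (σ.width + 1) ≤ L.length * (σ.width + 1) :=
                Nat.mul_le_mul_right _ hj
              rw [Nat.mul_comm (j + 1)] at this
              omega
            · rw [h4 j hj 0 (by omega)]
              exact c1
            · intro p _
              rw [h4 j hj _ (hw l p), c2 p]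
              exact (t p).2
          · refine ⟨d, hd, ?_⟩
            rw [Rg.mem_pair, he]
            have key : ∀ u : LV σ l g.a g.b, (eV g l u).val M [j] =
                lvN g l (fun i => t i) n j u := by
              intro u
              rcases u with ⟨p, i⟩ | q
              · simp only [eV, eE, Ex.val, List.getD_cons_zero, lvN]
                rw [h4 j hj _ (hw l p), c2 p]
              · simp only [eV, eN, Ex.val, List.getD_cons_zero, lvN, h2]
            rw [key, key]
  -- indices
  set N := (red g (code n L)).1 with hNdef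
  have ib : ∀ (x : ℕ) (i : Fin g.a), x < n → x * g.a + i < n * g.a := by
    intro x i hx
    have : (x + 1) * g.a ≤ n * g.a := Nat.mul_le_mul_right _ hx
    rw [Nat.succ_mul] at this
    have := i.2
    omega
  have jb : ∀ (j : ℕ) (q : Fin g.b), j < L.length →
      j * g.b + q < (1 + L.length * (σ.width + 1)) * g.b := by
    intro j q hj
    have h5 : (j + 1) * g.b ≤ (1 + L.length * (σ.width + 1)) * g.b := by
      refine Nat.mul_le_mul_right _ ?_
      have : L.length ≤ L.length * (σ.width + 1) := Nat.le_mul_of_pos_right _ (by omega)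
      omega
    rw [Nat.succ_mul] at h5
    have := q.2
    omega
  constructor
  · rintro ⟨f, hf⟩
    have ix : ∀ (x : Fin n) (i : Fin g.a), (x : ℕ) * g.a + i < N := by
      intro x i
      have := ib x i x.2
      rw [hN]
      omega
    refine ⟨fun x i => f ⟨x * g.a + i, ix x i⟩, ?_, ?_⟩
    · intro x e he
      exact hf (x * g.a + e.1, x * g.a + e.2) ((hA _).2 (Or.inl ⟨x, x.2, e, he, rfl⟩))
        (ix x e.1) (ix x e.2)
    · rintro l t ⟨c, hc, hc1, hc2⟩
      obtain ⟨j, hj, rfl⟩ := List.getElem_of_mem hc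
      have jx : ∀ q : Fin g.b, n * g.a + j * g.b + q < N := by
        intro q
        have := jb j q hj
        rw [hN]
        omega
      refine ⟨fun q => f ⟨n * g.a + j * g.b + q, jx q⟩, ?_⟩
      intro e he
      have h5 : ∀ u : LV σ l g.a g.b, lvN g l (fun i => t i) n j u < N := by
        intro u
        rcases u with ⟨p, i⟩ | q
        · exact ix (t p) i
        · exact jx q
      have h6 := hf _ ((hA _).2 (Or.inr ⟨j, hj, l, t, hc1, hc2, e, he, rfl⟩)) (h5 _) (h5 _)
      have h7 : ∀ u : LV σ l g.a g.b, (Sum.elim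
          (fun p : Fin (σ.ar l) × Fin g.a => f ⟨(t p.1 : ℕ) * g.a + p.2, ix _ _⟩)
          (fun q : Fin g.b => f ⟨n * g.a + j * g.b + q, jx q⟩) u : G) = f ⟨_, h5 u⟩ := by
        intro u
        rcases u with ⟨p, i⟩ | q <;> rfl
      have h8 := h7 e.1
      have h9 := h7 e.2
      simp only at h8 h9 ⊢
      rw [h8, h9]
      exact h6
  · rintro ⟨F, hF, hF2⟩
    have hH : ∀ j : ℕ, ∃ h : Fin g.b → G, ∀ (hj : j < L.length) (l : Fin σ.m)
        (t : Fin (σ.ar l) → Fin n), (L[j]).getD 0 0 = l →
        (∀ i : Fin (σ.ar l), (L[j]).getD (i + 1) 0 = t i) → ∀ e ∈ g.E1 l,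
          E (Sum.elim (fun p => F (t p.1) p.2) h e.1) (Sum.elim (fun p => F (t p.1) p.2) h e.2) := by
      intro j
      by_cases hex : ∃ (hj : j < L.length) (l : Fin σ.m) (t : Fin (σ.ar l) → Fin n),
          (L[j]).getD 0 0 = l ∧ (∀ i : Fin (σ.ar l), (L[j]).getD (i + 1) 0 = t i)
      · obtain ⟨hj, l, t, h5, h6⟩ := hex
        obtain ⟨h, hh⟩ := hF2 l t ⟨L[j], List.getElem_mem hj, h5, h6⟩
        refine ⟨h, ?_⟩
        intro hj' l' t' h5' h6'
        have hl : l' = l := Fin.ext (h5'.symm.trans h5)
        subst hl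
        have ht : t' = t := by
          funext i
          exact Fin.ext ((h6' i).symm.trans (h6 i))
        subst ht
        exact hh
      · refine ⟨fun _ => Classical.arbitrary G, ?_⟩
        intro hj l t h5 h6
        exact absurd ⟨hj, l, t, h5, h6⟩ hex
    choose H hH using hH
    classical
    let f : ℕ → G := fun v =>
      if h : ∃ (x : Fin n) (i : Fin g.a), (x : ℕ) * g.a + i = v then
        F h.choose h.choose_spec.choose
      else if h : ∃ (j : ℕ) (q : Fin g.b), n * g.a + j * g.b + q = v then
        H h.choose h.choose_spec.choose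
      else Classical.arbitrary G
    have uniq : ∀ (d x x' : ℕ) (i i' : Fin d), x * d + i = x' * d + i' → x = x' ∧ i = i' := by
      intro d x x' i i' h
      have hd : 0 < d := i.pos
      have h5 : x = x' := by
        have e1 : (x * d + i) / d = x := by
          rw [Nat.mul_comm, Nat.mul_add_div hd, Nat.div_eq_of_lt i.2, Nat.add_zero]
        have e2 : (x' * d + i') / d = x' := by
          rw [Nat.mul_comm, Nat.mul_add_div hd, Nat.div_eq_of_lt i'.2, Nat.add_zero]
        rw [← e1, ← e2, h]
      subst h5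
      exact ⟨rfl, Fin.ext (by omega)⟩
    have f1 : ∀ (x : Fin n) (i : Fin g.a), f (x * g.a + i) = F x i := by
      intro x i
      have hex : ∃ (x' : Fin n) (i' : Fin g.a), (x' : ℕ) * g.a + i' = x * g.a + i := ⟨x, i, rfl⟩
      have : f (x * g.a + i) = F hex.choose hex.choose_spec.choose := dif_pos hex
      rw [this]
      have h5 := hex.choose_spec.choose_spec
      obtain ⟨h6, h7⟩ := uniq _ _ _ _ _ h5
      rw [h7, Fin.ext h6]
    have f2 : ∀ (j : ℕ) (q : Fin g.b), f (n * g.a + j * g.b + q) = H j q := by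
      intro j q
      have hno : ¬ ∃ (x' : Fin n) (i' : Fin g.a), (x' : ℕ) * g.a + i' = n * g.a + j * g.b + q := by
        rintro ⟨x', i', h⟩
        have := ib x' i' x'.2
        omega
      have hex : ∃ (j' : ℕ) (q' : Fin g.b), n * g.a + j' * g.b + q' = n * g.a + j * g.b + q :=
        ⟨j, q, rfl⟩
      have : f (n * g.a + j * g.b + q) = H hex.choose hex.choose_spec.choose :=
        (dif_neg hno).trans (dif_pos hex)
      rw [this]
      have h5 := hex.choose_spec.choose_spec
      obtain ⟨h6, h7⟩ := uniq _ _ _ _ _ (show hex.choose * g.b + hex.choose_spec.choose =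
        j * g.b + q by omega)
      rw [h7, h6]
    refine ⟨fun v => f v, ?_⟩
    intro e he h5 h6
    rcases (hA e).1 he with ⟨x, hx, d, hd, rfl⟩ | ⟨j, hj, l, t, c1, c2, d, hd, rfl⟩
    · have := hF ⟨x, hx⟩ d hd
      have e1 := f1 ⟨x, hx⟩ d.1
      have e2 := f1 ⟨x, hx⟩ d.2
      simp only at e1 e2 ⊢
      rw [e1, e2]
      exact this
    · have h7 := hH j hj l t c1 c2 d hd
      have h8 : ∀ u : LV σ l g.a g.b, f (lvN g l (fun i => t i) n j u) =
          Sum.elim (fun p => F (t p.1) p.2) (H j) u := by
        intro u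
        rcases u with ⟨p, i⟩ | q
        · exact f1 (t p) i
        · exact f2 j q
      simp only
      rw [h8, h8]
      exact h7

end

end Pool.Agent.H68.BP
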