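import Pool.Agent.H68.BG.Defs
import Pool.Agent.H68.NPH.Mem

/-!
# The gadget reduction is computable in polynomial time
-/

namespace Pool.Agent.H68.BP

open Pool.Agent.H1.NP Pool.Agent.H1.PNP Pool.Agent.H68.OQP
open Pool.Agent.H68.NPH hiding prs
open Function

/-! ### Reading a raw string -/

/-- the numbers of a raw string with an empty certificate -/
def lgR : Lg :=
  .seq (.el (.inp (.con 0))) (.seq (.loop (.inp (.con 0)) (.el (.inp (.add (.con 1) (.var 0)))))
    (.el (.con 0)))

theorem lgR_out (x : List Bool) : lgR.out (bits x) [] = NPH.prs x [] := by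
  have e1 : ∀ i < x.length, (bits x).getD (1 + i) 0 = (x.getD i false).toNat := by
    intro i hi
    rw [Nat.add_comm]
    simp [bits, List.getD_eq_getElem?_getD, hi]
  simp only [lgR, Lg.out, Ex.val]
  have h0 : (bits x).getD 0 0 = x.length := rfl
  rw [h0]
  unfold NPH.prs
  simp only [List.getD_cons_zero, List.length_nil, List.map_nil, List.singleton_append]
  congr 2
  rw [flatMap_sing]
  refine List.ext_getElem (by simp) (fun i h1 h2 => ?_)
  have hi : i < x.length := by simpa using h1
  rw [List.getElem_map, List.getElem_range, e1 i hi]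
  simp [List.getD_eq_getElem?_getD, hi]

theorem polyOn_prsR : PolyOn (fun w : List Bool => w) unary (fun x => NPH.prs x []) :=
  (polyOn_raw.comp (polyOn_lg lgR)).congr (fun q => q) (fun _ => rfl) (fun q => by
    rw [lgR_out])

theorem polyOn_numsR : PolyOn (fun w : List Bool => w) unary (fun x => nums x []) :=
  (polyOn_prsR.comp (polyOn_gen gnD)).congr (fun q => q) (fun _ => rfl)
    (fun q => gnD_out q [])

theorem code_eq (n : ℕ) (L : List (List ℕ)) : code n L = unary (n :: L.flatten) := rfl

/-! ### Flattened lists -/

theorem flatten_getD {W : ℕ} : ∀ (L : List (List ℕ)), (∀ c ∈ L, c.length = W) →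
    ∀ (j : ℕ) (hj : j < L.length) (i : ℕ), i < W →
      L.flatten.getD (j * W + i) 0 = (L[j]).getD i 0 := by
  intro L
  induction L with
  | nil => intro _ j hj; simp at hj
  | cons c L ih =>
    intro hL j hj i hi
    have hc : c.length = W := hL c (by simp)
    rw [List.flatten_cons]
    rcases j with _ | j
    · rw [List.getD_append _ _ _ _ (by omega)]
      simp
    · rw [List.getD_append_right _ _ _ _ (by rw [hc, Nat.succ_mul]; omega)]
      rw [hc, show (j + 1) * W + i - W = j * W + i by rw [Nat.succ_mul]; omega]
      exact ih (fun c' h => hL c' (by simp [h])) j (by simpa using hj) i hi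

theorem flatten_length {W : ℕ} (L : List (List ℕ)) (hL : ∀ c ∈ L, c.length = W) :
    L.flatten.length = L.length * W := by
  induction L with
  | nil => simp
  | cons c L ih =>
    rw [List.flatten_cons, List.length_append, ih (fun c' h => hL c' (by simp [h])),
      hL c (by simp), List.length_cons, Nat.succ_mul, Nat.add_comm]

theorem flatten_inj {W : ℕ} (hW : 0 < W) : ∀ (L L' : List (List ℕ)), (∀ c ∈ L, c.length = W) →
    (∀ c ∈ L', c.length = W) → L.flatten = L'.flatten → L = L' := by
  intro L
  induction L with
  | nil =>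
    intro L' _ h' h
    cases L' with
    | nil => rfl
    | cons c L' =>
      have := congrArg List.length h
      rw [List.flatten_cons, List.length_append, h' c (by simp)] at this
      simp at this
      omega
  | cons c L ih =>
    intro L' hL h' h
    cases L' with
    | nil =>
      have := congrArg List.length h
      rw [List.flatten_cons, List.length_append, hL c (by simp)] at this
      simp at this
      omega
    | cons c' L' =>
      rw [List.flatten_cons, List.flatten_cons] at h
      obtain ⟨h1, h2⟩ := List.append_inj h (by rw [hL c (by simp), h' c' (by simp)])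
      rw [h1, ih L' (fun c h => hL c (by simp [h])) (fun c h => h' c (by simp [h])) h2]

/-- every list of the right length is a flattened list -/
theorem exists_flatten {W : ℕ} : ∀ (k : ℕ) (l : List ℕ), l.length = k * W →
    ∃ L : List (List ℕ), L.length = k ∧ (∀ c ∈ L, c.length = W) ∧ L.flatten = l := by
  intro k
  induction k with
  | zero =>
    intro l h
    rw [Nat.zero_mul] at h
    exact ⟨[], rfl, by simp, by simp [List.length_eq_zero_iff.1 h]⟩
  | succ k ih =>
    intro l h
    rw [Nat.succ_mul] at h
    obtain ⟨L, h1, h2, h3⟩ := ih (l.drop W) (by rw [List.length_drop]; omega)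
    refine ⟨l.take W :: L, by simp [h1], ?_, by rw [List.flatten_cons, h3, List.take_append_drop]⟩
    intro c hc
    rw [List.mem_cons] at hc
    rcases hc with rfl | hc
    · rw [List.length_take]
      omega
    · exact h2 c hc

/-- codes are unique -/
theorem code_inj {W : ℕ} (hW : 0 < W) {n n' : ℕ} {L L' : List (List ℕ)}
    (hL : ∀ c ∈ L, c.length = W) (hL' : ∀ c ∈ L', c.length = W) (h : code n L = code n' L') :
    n = n' ∧ L = L' := by
  rw [code_eq, code_eq] at h
  have := unary_inj h
  injection this with h1 h2
  exact ⟨h1, flatten_inj hW L L' hL hL' h2⟩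

/-! ### The programs -/

/-- entries, followed by a one if their number is `1 + k W` -/
def lgF (W : ℕ) : Lg :=
  .seq (.el (.inp (.con 0))) (.seq (.el (.inp (.con 1)))
    (.seq (.loop (.inp (.con 1)) (.el (.inp (.add (.con 2) (.var 0)))))
      (.loop (.inp (.con 1))
        ((Cd.eq (.add (.con 1) (.mul (.con W) (.var 0))) (.inp (.con 1))).ite
          (.el (.con 1)) .nil))))

/-- the numbers after the first phase -/
noncomputable def ph (W : ℕ) (x : List Bool) : List ℕ := (lgF W).out (nums x []) []

theorem ph_code {W : ℕ} {n : ℕ} {L : List (List ℕ)} (hL : ∀ c ∈ L, c.length = W) (hW : 0 < W) :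
    ∃ r, ph W (code n L) = 0 :: (1 + L.length * W) :: ((n :: L.flatten) ++ 1 :: r) := by
  classical
  have hlen : (n :: L.flatten).length = 1 + L.length * W := by
    rw [List.length_cons, flatten_length L hL, Nat.add_comm]
  set l := n :: L.flatten with hl
  have hnum : nums (code n L) [] = 0 :: l.length :: (l ++ [0]) := by
    unfold nums
    rw [code_eq, ← hl, bad_unary (by simp [hl]), zc_unary, dec_unary]
    rfl
  unfold ph
  rw [hnum]
  set M := 0 :: l.length :: (l ++ [0]) with hM
  have e1 : M.getD 1 0 = l.length := rfl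
  have e2 : ∀ i < l.length, M.getD (2 + i) 0 = l.getD i 0 := by
    intro i hi
    rw [hM, Nat.add_comm, List.getD_cons_succ, List.getD_cons_succ,
      List.getD_append _ _ _ _ hi]
  simp only [lgF, Lg.out, Ex.val, e1, Cd.ite_out, tv_eq, List.getD_cons_zero]
  have hk : (List.range l.length).flatMap (fun i => if 1 + W * i = l.length then [1] else []) =
      [1] := by
    have h1 : L.length < l.length := by
      rw [hlen]
      have : L.length ≤ L.length * W := Nat.le_mul_of_pos_right _ hW
      omega
    have h2 : ∀ i, 1 + W * i = l.length ↔ i = L.length := by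
      intro i
      rw [hlen, Nat.mul_comm W i]
      constructor
      · intro h
        exact Nat.eq_of_mul_eq_mul_right hW (by omega)
      · rintro rfl
        rfl
    simp only [h2]
    clear h2 e2 e1 hM hnum hlen hl
    generalize l.length = N at h1
    induction N with
    | zero => omega
    | succ N ih =>
      rw [List.range_succ, List.flatMap_append]
      by_cases h : L.length = N
      · have : (List.range N).flatMap (fun i => if i = L.length then [1] else []) = [] := by
          rw [List.flatMap_eq_nil_iff]
          intro i hi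
          have := List.mem_range.1 hi
          rw [if_neg (by omega)]
        rw [this]
        simp [h]
      · rw [ih (by omega)]
        simp [Ne.symm h]
  refine ⟨[], ?_⟩
  have h0 : M.getD 0 0 = 0 := rfl
  rw [hk, h0, hlen]
  simp only [List.singleton_append, List.cons_append, List.nil_append]
  congr 2
  rw [flatMap_sing]
  have : (List.range (1 + L.length * W)).map (fun i => M.getD (2 + i) 0) = l := by
    refine List.ext_getElem (by simp [hlen]) (fun i h1 h2 => ?_)
    rw [List.getElem_map, List.getElem_range, e2 i h2]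
    simp [List.getD_eq_getElem?_getD, h2]
  rw [this, hl]

/-- the first phase on strings that are not codes -/
theorem ph_bad {W : ℕ} {x : List Bool} (hx : bad x ≠ 0) : (ph W x).getD 0 0 ≠ 0 := by
  unfold ph
  simp only [lgF, Lg.out, List.singleton_append, List.getD_cons_zero, Ex.val]
  unfold nums
  rw [List.getD_cons_zero]
  exact hx

theorem ph_unary {W : ℕ} {l : List ℕ} (hl : l ≠ []) (hk : ∀ k, 1 + W * k ≠ l.length) :
    (ph W (unary l)).getD (2 + (ph W (unary l)).getD 1 0) 0 = 0 := by
  classical
  have hnum : nums (unary l) [] = 0 :: l.length :: (l ++ [0]) := by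
    unfold nums
    rw [bad_unary hl, zc_unary, dec_unary]
    rfl
  unfold ph
  rw [hnum]
  set M := 0 :: l.length :: (l ++ [0]) with hM
  have e1 : M.getD 1 0 = l.length := rfl
  simp only [lgF, Lg.out, Ex.val, e1, Cd.ite_out, tv_eq, List.getD_cons_zero]
  have : (List.range l.length).flatMap (fun i => if 1 + W * i = l.length then [1] else []) =
      [] := by
    rw [List.flatMap_eq_nil_iff]
    intro i _
    rw [if_neg (hk i)]
  rw [this]
  simp only [List.singleton_append, List.append_nil, List.getD_cons_succ, List.getD_cons_zero]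
  rw [Nat.add_comm, List.getD_cons_succ, List.getD_cons_succ, List.getD_eq_getElem?_getD,
    List.getElem?_eq_none]
  · rfl
  · rw [flatMap_sing]
    simp

/-! ### The graph -/

/-- the generator printing a list of pairs as constraints of a graph -/
def toLg3 : Rg → Lg
  | .nil => .nil
  | .pair a b => .seq (.el (.con 0)) (.seq (.el a) (.el b))
  | .seq g h => .seq (toLg3 g) (toLg3 h)
  | .cond c g => c.ite (toLg3 g) .nil
  | .loop e g => .loop e (toLg3 g)

theorem toLg3_out (l : List ℕ) (g : Rg) : ∀ env, (toLg3 g).out l env =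
    (g.out l env).flatMap (fun e => [0, e.1, e.2]) := by
  induction g with
  | nil => intro env; rfl
  | pair a b => intro env; simp [toLg3, Lg.out, Rg.out, Ex.val]
  | seq g h ihg ihh =>
    intro env
    simp only [toLg3, Lg.out, Rg.out, ihg, ihh, List.flatMap_append]
  | cond c g ih =>
    intro env
    simp only [toLg3, Rg.out, Cd.ite_out, ih]
    split_ifs <;> rfl
  | loop e g ih =>
    intro env
    simp only [toLg3, Lg.out, Rg.out, ih]
    induction List.range (e.val l env) with
    | nil => rfl
    | cons i L ih2 => simp only [List.flatMap_cons, List.flatMap_append, ih2]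

/-- the code of a digraph given by the number of vertices and the list of arcs -/
def encD (p : ℕ × List (ℕ × ℕ)) : List Bool := code p.1 (p.2.map (fun e => [0, e.1, e.2]))

theorem encD_eq (p : ℕ × List (ℕ × ℕ)) :
    encD p = unary (p.1 :: p.2.flatMap (fun e => [0, e.1, e.2])) := by
  unfold encD
  rw [code_eq, List.flatMap_def]

/-- homomorphisms of a digraph given by the number of vertices and the list of arcs -/
def QD {G : Type} (E : G → G → Prop) (p : ℕ × List (ℕ × ℕ)) : Prop :=
  ∃ f : Fin p.1 → G, ∀ e ∈ p.2, ∀ (h1 : e.1 < p.1) (h2 : e.2 < p.1), E (f ⟨e.1, h1⟩) (f ⟨e.2, h2⟩)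

theorem width_digraph : Sig.digraph.width = 2 := by
  unfold Sig.width Sig.digraph
  simp

theorem csp_encD {G : Type} (E : G → G → Prop) (p : ℕ × List (ℕ × ℕ)) :
    CSP (graph E) (encD p) = true ↔ QD E p := by
  have hlen : ∀ c ∈ p.2.map (fun e => [0, e.1, e.2]), c.length = 3 := by
    intro c hc
    rw [List.mem_map] at hc
    obtain ⟨e, -, rfl⟩ := hc
    rfl
  have key : ∀ f : Fin p.1 → G, (IsHom (strOf Sig.digraph p.1 (p.2.map (fun e => [0, e.1, e.2])))
      (graph E) f ↔ ∀ e ∈ p.2, ∀ (h1 : e.1 < p.1) (h2 : e.2 < p.1),
        E (f ⟨e.1, h1⟩) (f ⟨e.2, h2⟩)) := by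
    intro f
    constructor
    · intro h e he h1 h2
      have := h (0 : Fin 1) (![⟨e.1, h1⟩, ⟨e.2, h2⟩] : Fin 2 → Fin p.1) ⟨[0, e.1, e.2],
        List.mem_map.2 ⟨e, he, rfl⟩, rfl, ?_⟩
      · exact this
      · intro i
        change Fin 2 at i
        fin_cases i <;> rfl
    · rintro h l x ⟨c, hc, -, h2⟩
      rw [List.mem_map] at hc
      obtain ⟨e, he, rfl⟩ := hc
      have h3 : e.1 = (x (0 : Fin 2) : ℕ) := h2 (0 : Fin 2)
      have h4 : e.2 = (x (1 : Fin 2) : ℕ) := h2 (1 : Fin 2)
      have h5 : e.1 < p.1 := by rw [h3]; exact (x (0 : Fin 2)).2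
      have h6 : e.2 < p.1 := by rw [h4]; exact (x (1 : Fin 2)).2
      have := h e he h5 h6
      have h7 : (⟨e.1, h5⟩ : Fin p.1) = x (0 : Fin 2) := Fin.ext h3
      have h8 : (⟨e.2, h6⟩ : Fin p.1) = x (1 : Fin 2) := Fin.ext h4
      rw [h7, h8] at this
      exact this
  have hdec : CSP (graph E) (encD p) = true ↔ ∃ n L, (∀ c ∈ L, c.length = Sig.digraph.width + 1) ∧
      code n L = encD p ∧ ∃ f : Fin n → G, IsHom (strOf Sig.digraph n L) (graph E) f := by
    unfold CSP
    exact @decide_eq_true_iff _ (Classical.propDecidable _)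
  rw [hdec, width_digraph]
  constructor
  · rintro ⟨n, L, h1, h2, f, h3⟩
    obtain ⟨h4, h5⟩ := code_inj (by norm_num) h1 hlen h2
    subst h4 h5
    exact ⟨f, (key f).1 h3⟩
  · rintro ⟨f, hf⟩
    exact ⟨p.1, _, hlen, rfl, f, (key f).2 hf⟩

end Pool.Agent.H68.BP
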